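import Pool.Agent.MP_16e930_an.H27.Spec

/-!
Transport of the half-space theorem to the unit ball.
-/

set_option autoImplicit false
open MeasureTheory Filter Topology Set
open scoped ENNReal

namespace Pool.Agent.MP_16e930_an.H27

namespace Ball

/-- Clamping to the interval of radius one half. -/
noncomputable def cl (t : ℝ) : ℝ := max (-(1 / 2)) (min t (1 / 2))

lemma cl_abs (t : ℝ) : |cl t| ≤ 1 / 2 := by
  unfold cl
  rw [abs_le]
  refine ⟨le_max_left _ _, max_le (by norm_num) (min_le_right _ _)⟩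

lemma cl_sub (s t : ℝ) : |cl s - cl t| ≤ |s - t| := by
  unfold cl
  have h1 := le_abs_self (s - t)
  have h2 := neg_abs_le (s - t)
  rw [abs_le, max_def, max_def, min_def, min_def]
  split_ifs <;> constructor <;> linarith

lemma cl_sq (t : ℝ) : cl t ^ 2 ≤ t ^ 2 := by
  have h := cl_sub t 0
  have h0 : cl 0 = 0 := by unfold cl; norm_num
  rw [h0, sub_zero, sub_zero] at h
  exact sq_le_sq.2 h

lemma cl_eq {t : ℝ} (h : |t| ≤ 1 / 2) : cl t = t := by
  unfold cl
  rw [abs_le] at h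
  rw [min_eq_left h.2, max_eq_right h.1]

lemma cl_sq_le (t : ℝ) : cl t ^ 2 ≤ 1 / 4 := by
  have h := cl_abs t
  have h2 : cl t ^ 2 = |cl t| ^ 2 := (sq_abs _).symm
  have h3 := abs_nonneg (cl t)
  nlinarith

/-- The height of the lower hemisphere near the south pole. -/
noncomputable def g (p : V) : ℝ := Real.sqrt (1 - cl (p 0) ^ 2 - cl (p 1) ^ 2)

lemma g_sq (p : V) : g p ^ 2 = 1 - cl (p 0) ^ 2 - cl (p 1) ^ 2 := by
  unfold g
  have h0 := cl_sq_le (p 0)
  have h1 := cl_sq_le (p 1)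
  exact Real.sq_sqrt (by linarith)

lemma g_nonneg (p : V) : 0 ≤ g p := Real.sqrt_nonneg _

lemma g_ge (p : V) : 1 / 2 ≤ g p := by
  have h := g_sq p
  have h0 := cl_sq_le (p 0)
  have h1 := cl_sq_le (p 1)
  have h2 := g_nonneg p
  by_contra hc
  nlinarith

lemma g_le (p : V) : g p ≤ 1 := by
  have h := g_sq p
  have h0 := sq_nonneg (cl (p 0))
  have h1 := sq_nonneg (cl (p 1))
  have h2 := g_nonneg p
  by_contra hc
  nlinarith

lemma sq_sub (s t d : ℝ) (h : |s - t| ≤ d) : |cl s ^ 2 - cl t ^ 2| ≤ d := by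
  have e : cl s ^ 2 - cl t ^ 2 = (cl s - cl t) * (cl s + cl t) := by ring
  have h1 : |cl s + cl t| ≤ 1 := by
    have := abs_add_le (cl s) (cl t)
    have := cl_abs s
    have := cl_abs t
    linarith
  rw [e, abs_mul]
  calc |cl s - cl t| * |cl s + cl t| ≤ |cl s - cl t| * 1 :=
        mul_le_mul_of_nonneg_left h1 (abs_nonneg _)
    _ ≤ d := by rw [mul_one]; exact (cl_sub s t).trans h

lemma g_lip : LipschitzWith 2 g := by
  refine LipschitzWith.of_dist_le_mul fun p q => ?_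
  have h0 := sq_sub (p 0) (q 0) (dist p q) (dist_le_pi_dist p q 0)
  have h1 := sq_sub (p 1) (q 1) (dist p q) (dist_le_pi_dist p q 1)
  have e : (g p - g q) * (g p + g q) =
      -((cl (p 0) ^ 2 - cl (q 0) ^ 2) + (cl (p 1) ^ 2 - cl (q 1) ^ 2)) := by
    have := g_sq p
    have := g_sq q
    linear_combination g_sq p - g_sq q
  have h2 : |(g p - g q) * (g p + g q)| ≤ 2 * dist p q := by
    rw [e, abs_neg]
    have := abs_add_le (cl (p 0) ^ 2 - cl (q 0) ^ 2) (cl (p 1) ^ 2 - cl (q 1) ^ 2)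
    linarith
  have h3 : 1 ≤ g p + g q := by linarith [g_ge p, g_ge q]
  rw [abs_mul, abs_of_nonneg (by linarith : (0 : ℝ) ≤ g p + g q)] at h2
  rw [Real.dist_eq]
  have h4 := abs_nonneg (g p - g q)
  push_cast
  nlinarith

/-- The vertical unit vector. -/
def e2 : V := Pi.single 2 1

lemma norm_e2 : ‖e2‖ = 1 := by unfold e2; rw [Pi.norm_single]; simp

lemma g_add (p : V) (t : ℝ) : g (p + t • e2) = g p := by
  unfold g e2
  simp

/-- The shear that flattens the lower hemisphere near the south pole. -/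
noncomputable def Th (p : V) : V := p + g p • e2

noncomputable def Ti (p : V) : V := p + (-g p) • e2

lemma Ti_Th (p : V) : Ti (Th p) = p := by
  unfold Ti
  have h : g (Th p) = g p := g_add p _
  rw [h]
  unfold Th
  rw [neg_smul]
  abel

lemma lip_aux (σ : ℝ) (hσ : |σ| = 1) : LipschitzWith 3 fun p : V => p + (σ * g p) • e2 := by
  refine LipschitzWith.of_dist_le_mul fun p q => ?_
  have h := g_lip.dist_le_mul p q
  rw [Real.dist_eq] at h
  have e : p + (σ * g p) • e2 - (q + (σ * g q) • e2) = (p - q) + (σ * (g p - g q)) • e2 := by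
    rw [mul_sub, sub_smul]; abel
  rw [dist_eq_norm, e]
  have h2 := norm_add_le (p - q) ((σ * (g p - g q)) • e2)
  rw [norm_smul, norm_e2, Real.norm_eq_abs, abs_mul, hσ, ← dist_eq_norm] at h2
  push_cast at h ⊢
  linarith

lemma Th_lip : LipschitzWith 3 Th := by
  have h := lip_aux 1 (by simp)
  simp only [one_mul] at h
  exact h

lemma Ti_lip : LipschitzWith 3 Ti := by
  have h := lip_aux (-1) (by simp)
  simp only [neg_one_mul] at h
  exact h

lemma Th_two (p : V) : Th p 2 = p 2 + g p := by simp [Th, e2]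

lemma Th_pos {p : V} (h : p 0 ^ 2 + p 1 ^ 2 + p 2 ^ 2 < 1) : 0 < Th p 2 := by
  rw [Th_two]
  have h1 := g_sq p
  have h2 := cl_sq (p 0)
  have h3 := cl_sq (p 1)
  have h4 := g_nonneg p
  by_contra hc
  nlinarith

lemma Th_norm {p : V} (h : ‖p‖ ≤ 1) : ‖Th p‖ ≤ 3 := by
  have h2 := norm_add_le p (g p • e2)
  rw [norm_smul, norm_e2, Real.norm_eq_abs, abs_of_nonneg (g_nonneg p)] at h2
  have := g_le p
  unfold Th
  linarith

/-- The identification of the Euclidean space with the coordinate space. -/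
noncomputable def eq : E ≃L[ℝ] V := EuclideanSpace.equiv (Fin 3) ℝ

lemma eq_apply (x : E) (i : Fin 3) : eq x i = x i := rfl

lemma eq_symm_apply (y : V) (i : Fin 3) : eq.symm y i = y i := rfl

lemma nsq (x : E) : ‖x‖ ^ 2 = x 0 ^ 2 + x 1 ^ 2 + x 2 ^ 2 := by
  rw [EuclideanSpace.real_norm_sq_eq, Fin.sum_univ_three]

lemma norm_eq_le (x : E) : ‖eq x‖ ≤ ‖x‖ := by
  refine (pi_norm_le_iff_of_nonneg (norm_nonneg _)).2 fun i => ?_
  exact PiLp.norm_apply_le x i

lemma ball_sq {x : E} (hx : x ∈ Metric.ball (0 : E) 1) :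
    eq x 0 ^ 2 + eq x 1 ^ 2 + eq x 2 ^ 2 < 1 := by
  rw [mem_ball_zero_iff] at hx
  have h := nsq x
  have h0 := norm_nonneg x
  simp only [eq_apply]
  nlinarith

lemma det_eq (T : V →L[ℝ] V) : T.det = det3 (col T 0) (col T 1) (col T 2) := by
  unfold ContinuousLinearMap.det
  rw [← LinearMap.det_toMatrix', Matrix.det_fin_three]
  simp only [LinearMap.toMatrix'_apply, det3, col, ContinuousLinearMap.coe_coe]
  ring

lemma norm_le_of_col (D : V →L[ℝ] V) (b : ℝ) (hb : 0 ≤ b) (h : ∀ i j, |col D i j| ≤ b) :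
    ‖D‖ ≤ 3 * b := by
  refine ContinuousLinearMap.opNorm_le_bound _ (by positivity) fun w => ?_
  have hw : w = w 0 • (Pi.single 0 1 : V) + w 1 • (Pi.single 1 1 : V) +
      w 2 • (Pi.single 2 1 : V) := by
    ext i
    fin_cases i <;> simp
  have hc : ∀ i, ‖w i • col D i‖ ≤ b * ‖w‖ := by
    intro i
    rw [norm_smul, mul_comm]
    refine mul_le_mul ?_ (norm_le_pi_norm w i) (norm_nonneg _) hb
    exact (pi_norm_le_iff_of_nonneg hb).2 fun j => h i j
  have e : D w = w 0 • col D 0 + w 1 • col D 1 + w 2 • col D 2 := by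
    conv_lhs => rw [hw]
    simp only [map_add, map_smul, col]
  rw [e]
  have h1 := norm_add_le (w 0 • col D 0 + w 1 • col D 1) (w 2 • col D 2)
  have h2 := norm_add_le (w 0 • col D 0) (w 1 • col D 1)
  linarith [hc 0, hc 1, hc 2]

lemma fderiv_g_e2 {p : V} (h : DifferentiableAt ℝ g p) : fderiv ℝ g p e2 = 0 := by
  have h1 : HasDerivAt (fun t : ℝ => g (p + t • e2)) (fderiv ℝ g p e2) 0 :=
    h.hasFDerivAt.hasLineDerivAt e2
  have h2 : (fun t : ℝ => g (p + t • e2)) = fun _ => g p := funext fun t => g_add p t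
  rw [h2] at h1
  exact h1.unique (hasDerivAt_const _ _)

/-- The differential of the shear. -/
noncomputable def dT (p : V) : V →L[ℝ] V :=
  ContinuousLinearMap.id ℝ V + (fderiv ℝ g p).smulRight e2

lemma hasF_Th {p : V} (h : DifferentiableAt ℝ g p) : HasFDerivAt Th (dT p) p :=
  (hasFDerivAt_id p).add (h.hasFDerivAt.smul_const e2)

lemma det_comp {p : V} (h : DifferentiableAt ℝ g p) (D : V →L[ℝ] V) :
    (D ∘L dT p).det = det3 (col D 0) (col D 1) (col D 2) := by
  rw [det_eq]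
  have hc : ∀ i, col (D ∘L dT p) i = col D i + fderiv ℝ g p (Pi.single i 1) • col D 2 := by
    intro i
    simp [col, dT, e2]
  have h2 : fderiv ℝ g p (Pi.single 2 1) = 0 := fderiv_g_e2 h
  rw [hc 0, hc 1, hc 2, h2]
  simp only [det3, Pi.add_apply, Pi.smul_apply, smul_eq_mul]
  ring

lemma det_cj (T : V →L[ℝ] V) :
    ((eq.symm : V →L[ℝ] E) ∘L T ∘L (eq : E →L[ℝ] V)).det = T.det :=
  LinearMap.det_conj (T : V →ₗ[ℝ] V) eq.symm.toLinearEquiv

/-- The point of the lower hemisphere above or below `x`. -/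
noncomputable def xi (x : ℝ × ℝ) : E := eq.symm ![x.1, x.2, -g (gr x)]

lemma sq_abs {x : ℝ × ℝ} (hx : x ∈ Sq) : |x.1| ≤ 1 / 2 ∧ |x.2| ≤ 1 / 2 := by
  obtain ⟨⟨h1, h2⟩, h3, h4⟩ := hx
  constructor <;> rw [abs_le] <;> constructor <;> linarith

lemma xi_norm {x : ℝ × ℝ} (hx : x ∈ Sq) : ‖xi x‖ = 1 := by
  have h := nsq (xi x)
  have hg := g_sq (gr x)
  have e0 : gr x 0 = x.1 := rfl
  have e1 : gr x 1 = x.2 := rfl
  rw [e0, e1, cl_eq (sq_abs hx).1, cl_eq (sq_abs hx).2] at hg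
  have a0 : xi x 0 = x.1 := rfl
  have a1 : xi x 1 = x.2 := rfl
  have a2 : xi x 2 = -g (gr x) := rfl
  rw [a0, a1, a2] at h
  have h1 : ‖xi x‖ ^ 2 = 1 ^ 2 := by linear_combination h + hg
  exact (pow_left_inj₀ (norm_nonneg _) zero_le_one two_ne_zero).1 h1

lemma g_xi (x : ℝ × ℝ) : g (eq (xi x)) = g (gr x) := rfl

lemma Th_xi (x : ℝ × ℝ) : Th (eq (xi x)) = gr x := by
  unfold Th
  rw [g_xi]
  ext i
  fin_cases i <;> simp [xi, e2, gr]

lemma path {x : ℝ × ℝ} (hx : x ∈ Sq) (s : ℝ) (hs : 0 < s) (hs1 : s < 1 / 10) :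
    s ≤ Th (eq ((1 - 2 * s) • xi x)) 2 ∧ dist (Th (eq ((1 - 2 * s) • xi x))) (gr x) ≤ 10 * s := by
  constructor
  · rw [Th_two]
    have a0 : eq ((1 - 2 * s) • xi x) 0 = (1 - 2 * s) * x.1 := rfl
    have a1 : eq ((1 - 2 * s) • xi x) 1 = (1 - 2 * s) * x.2 := rfl
    have a2 : eq ((1 - 2 * s) • xi x) 2 = (1 - 2 * s) * -g (gr x) := rfl
    have hg := g_sq (gr x)
    have e0 : gr x 0 = x.1 := rfl
    have e1 : gr x 1 = x.2 := rfl
    rw [e0, e1, cl_eq (sq_abs hx).1, cl_eq (sq_abs hx).2] at hg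
    have h1 := g_sq (eq ((1 - 2 * s) • xi x))
    have h2 := cl_sq ((1 - 2 * s) * x.1)
    have h3 := cl_sq ((1 - 2 * s) * x.2)
    rw [a0, a1] at h1
    have ht : (1 - 2 * s) ^ 2 ≤ 1 := by nlinarith
    have h4 : ((1 - 2 * s) * x.1) ^ 2 ≤ x.1 ^ 2 := by
      rw [mul_pow]; nlinarith [sq_nonneg x.1]
    have h5 : ((1 - 2 * s) * x.2) ^ 2 ≤ x.2 ^ 2 := by
      rw [mul_pow]; nlinarith [sq_nonneg x.2]
    have h6 : g (gr x) ≤ g (eq ((1 - 2 * s) • xi x)) :=
      (abs_le_of_sq_le_sq' (by linarith) (g_nonneg _)).2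
    have h7 := g_ge (gr x)
    rw [a2]
    nlinarith
  · rw [← Th_xi x]
    have h := Th_lip.dist_le_mul (eq ((1 - 2 * s) • xi x)) (eq (xi x))
    have e : eq ((1 - 2 * s) • xi x) - eq (xi x) = eq ((-(2 * s)) • xi x) := by
      rw [← map_sub]
      congr 1
      rw [sub_smul, one_smul, neg_smul]
      abel
    have h2 := norm_eq_le ((-(2 * s)) • xi x)
    rw [norm_smul, xi_norm hx, Real.norm_eq_abs, abs_neg, abs_of_pos (by linarith)] at h2
    rw [dist_eq_norm (eq _), e] at h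
    push_cast at h
    linarith

/-- The projection to the ground plane. -/
def pr (x : E) : ℝ × ℝ := (x 0, x 1)

lemma pr_lip : LipschitzWith 1 pr := by
  refine LipschitzWith.of_dist_le_mul fun p q => ?_
  rw [Prod.dist_eq]
  push_cast
  rw [one_mul]
  exact max_le (PiLp.dist_apply_le p q 0) (PiLp.dist_apply_le p q 1)

end Ball

open Ball in
theorem rowBall : OfBall := by
  rintro hP ⟨Φ, hL, hD, hB, A, hA, hA0, hN⟩
  refine ⟨fun x => eq.symm (Φ (Th (eq x))), ?_, ?_, ?_, ?_⟩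
  · intro p hp
    obtain ⟨K, t, ht, hK⟩ := hL _ (Th_pos (ball_sq hp))
    have hl : LipschitzWith _ (Th ∘ eq) := Th_lip.comp eq.lipschitz
    refine ⟨_, (Th ∘ eq) ⁻¹' t, hl.continuous.continuousAt.preimage_mem_nhds ht,
      eq.symm.lipschitz.comp_lipschitzOnWith (hK.comp hl.lipschitzOnWith fun _ h => h)⟩
  · intro p hp
    have h := hB _ (Th_norm ((norm_eq_le p).trans (mem_ball_zero_iff.1 hp).le))
      (Th_pos (ball_sq hp))
    rw [mem_ball_zero_iff]
    have h2 := nsq (eq.symm (Φ (Th (eq p))))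
    simp only [eq_symm_apply] at h2
    unfold dd at h
    have h3 := norm_nonneg (eq.symm (Φ (Th (eq p))))
    by_contra hc
    nlinarith
  · set C : ℝ := ‖(eq.symm : V →L[ℝ] E)‖ * ‖(eq : E →L[ℝ] V)‖ * 135 with hC
    have hC0 : 0 ≤ C := by positivity
    refine ⟨C ^ 3 + 1, by linarith [pow_nonneg hC0 3], ?_⟩
    have h1 := hP Th Ti 3 Ti_lip Ti_Th _ hD
    have h2 : ∀ᵐ p : V, DifferentiableAt ℝ g p := g_lip.ae_differentiableAt
    have h3 := (PiLp.volume_preserving_ofLp (Fin 3)).quasiMeasurePreserving.ae (h1.and h2)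
    rw [ae_restrict_iff' measurableSet_ball]
    filter_upwards [h3] with x hx hxb
    obtain ⟨D, hD1, σ, hσ, hcol, hdet⟩ := hx.1 (Th_pos (ball_sq hxb))
    have hg : DifferentiableAt ℝ g (eq x) := hx.2
    have hf : HasFDerivAt (fun x => eq.symm (Φ (Th (eq x))))
        ((eq.symm : V →L[ℝ] E) ∘L (D ∘L dT (eq x)) ∘L (eq : E →L[ℝ] V)) x :=
      eq.symm.hasFDerivAt.comp x ((hD1.comp (eq x) (hasF_Th hg)).comp x eq.hasFDerivAt)
    rw [hf.fderiv, det_cj, det_comp hg]
    have n1 : ‖D‖ ≤ 3 * (15 * σ) := norm_le_of_col D _ (by positivity) hcol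
    have n2 : ‖dT (eq x)‖ ≤ 3 := (hasF_Th hg).le_of_lipschitz Th_lip
    have n3 : ‖D ∘L dT (eq x)‖ ≤ 135 * σ :=
      (ContinuousLinearMap.opNorm_comp_le _ _).trans
        ((mul_le_mul n1 n2 (norm_nonneg _) (by positivity)).trans (le_of_eq (by ring)))
    have n4 : ‖(eq.symm : V →L[ℝ] E) ∘L (D ∘L dT (eq x)) ∘L (eq : E →L[ℝ] V)‖ ≤ C * σ := by
      refine (ContinuousLinearMap.opNorm_comp_le _ _).trans ?_
      refine (mul_le_mul_of_nonneg_left ((ContinuousLinearMap.opNorm_comp_le _ _).trans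
        (mul_le_mul_of_nonneg_right n3 (norm_nonneg _))) (norm_nonneg _)).trans (le_of_eq ?_)
      rw [hC]; ring
    have n5 := pow_le_pow_left₀ (norm_nonneg _) n4 3
    rw [mul_pow] at n5
    have n6 : 0 < σ ^ 3 := by positivity
    have n7 := mul_le_mul_of_nonneg_left hdet (pow_nonneg hC0 3)
    nlinarith
  · set S : Set E := {ξ : E | ξ ∈ Metric.sphere (0 : E) 1 ∧ ¬ ∃ L : E,
      Tendsto (fun t : ℝ => eq.symm (Φ (Th (eq (t • ξ))))) (𝓝[<] 1) (𝓝 L)} with hS
    have hsub : A ⊆ pr '' S := by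
      intro x hx
      refine ⟨xi x, ⟨mem_sphere_zero_iff_norm.2 (xi_norm (hA hx)), ?_⟩, rfl⟩
      rintro ⟨L, hLim⟩
      refine hN x hx (fun s => Th (eq ((1 - 2 * s) • xi x))) (path (hA hx)) ⟨eq L, ?_⟩
      have ht : Tendsto (fun s : ℝ => 1 - 2 * s) (𝓝[>] 0) (𝓝[<] 1) := by
        refine tendsto_nhdsWithin_iff.2 ⟨?_, ?_⟩
        · have hc : Continuous fun s : ℝ => 1 - 2 * s := by fun_prop
          have := (hc.tendsto 0).mono_left (nhdsWithin_le_nhds (s := Ioi 0))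
          simpa using this
        · filter_upwards [self_mem_nhdsWithin] with s hs
          have hs' : (0 : ℝ) < s := hs
          show 1 - 2 * s < 1
          linarith
      exact ((eq.continuous.tendsto L).comp hLim).comp ht
    have h1 := pr_lip.hausdorffMeasure_image_le (d := 2) (by norm_num) S
    rw [hausdorffMeasure_prod_real] at h1
    have h2 : volume A ≤ μH[2] S := by
      refine (measure_mono hsub).trans (h1.trans (le_of_eq ?_))
      simp
    exact hA0.trans_le h2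

end Pool.Agent.MP_16e930_an.H27
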