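import Pool.Agent.MP_16e930_an.H27.Gadget

/-! The modification of the map over one small square. -/

set_option autoImplicit false
open MeasureTheory Filter Topology Set

namespace Pool.Agent.MP_16e930_an.H27

def pr (p : V) : ℝ × ℝ := (p 0, p 1)

lemma pr_gr (x : ℝ × ℝ) : pr (gr x) = x := rfl

lemma gr_two (x : ℝ × ℝ) : gr x 2 = 0 := rfl

lemma dist_pr (p p' : V) : dist (pr p) (pr p') ≤ dist p p' :=
  max_le (dist_le_pi_dist p p' 0) (dist_le_pi_dist p p' 1)

lemma dist_gr_lt {p : V} {x : ℝ × ℝ} {t : ℝ} (h : dist (pr p) x < t) (h0 : 0 ≤ p 2)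
    (h1 : p 2 < t) : dist p (gr x) < t := by
  rw [Prod.dist_eq, max_lt_iff] at h
  rw [dist_pi_lt_iff (h0.trans_lt h1)]
  intro i
  fin_cases i
  · exact h.1
  · exact h.2
  · simpa [gr, abs_of_nonneg h0] using h1

lemma LL.add {F G : V → V} {p : V} (h : LL F p) (h' : LL G p) : LL (fun p => F p + G p) p := by
  obtain ⟨K, t, ht, h⟩ := h
  obtain ⟨K', t', ht', h'⟩ := h'
  exact ⟨_, _, inter_mem ht ht', (h.mono inter_subset_left).add (h'.mono inter_subset_right)⟩

lemma LL.congr {F G : V → V} {p : V} (h : LL F p) (e : G =ᶠ[𝓝 p] F) : LL G p := by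
  obtain ⟨K, t, ht, h⟩ := h
  refine ⟨K, _, inter_mem ht e, fun x hx y hy => ?_⟩
  rw [show G x = F x from hx.2, show G y = F y from hy.2]
  exact h hx.1 hy.1

lemma LL.continuousAt {F : V → V} {p : V} (h : LL F p) : ContinuousAt F p := by
  obtain ⟨K, t, ht, h⟩ := h
  exact h.continuousOn.continuousAt ht

lemma dd_le_one (y : V) : dd y ≤ 1 := by unfold dd; nlinarith [sq_nonneg (y 0), sq_nonneg (y 1), sq_nonneg (y 2)]

lemma norm_le_of_dd {y : V} (h : 0 < dd y) : ‖y‖ ≤ 1 := by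
  rw [pi_norm_le_iff_of_nonneg zero_le_one]
  unfold dd at h
  have := sq_nonneg (y 0)
  have := sq_nonneg (y 1)
  have := sq_nonneg (y 2)
  intro i
  rw [Real.norm_eq_abs, ← sq_le_one_iff_abs_le_one]
  fin_cases i <;> simp only [Fin.zero_eta, Fin.mk_one, Fin.reduceFinMk] <;> linarith

lemma dd_near {y v : V} (h : 0 < dd y) (hv : ‖v - y‖ ≤ 1 / 20 * dd y) :
    0 < dd v ∧ dd v ≤ 2 * dd y := by
  have h1 := dd_le_one y
  have a := fun i => abs_le.1 ((norm_le_pi_norm (v - y) i).trans hv)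
  have b := fun i => abs_le.1 ((norm_le_pi_norm y i).trans (norm_le_of_dd h))
  have k : ∀ i, |v i ^ 2 - y i ^ 2| ≤ 3 / 20 * dd y := by
    intro i
    have a1 := a i
    have b1 := b i
    simp only [Pi.sub_apply] at a1
    rw [abs_le]; constructor <;> nlinarith [a1.1, a1.2, b1.1, b1.2]
  have k0 := abs_le.1 (k 0)
  have k1 := abs_le.1 (k 1)
  have k2 := abs_le.1 (k 2)
  have e : dd v = dd y - (v 0 ^ 2 - y 0 ^ 2) - (v 1 ^ 2 - y 1 ^ 2) - (v 2 ^ 2 - y 2 ^ 2) := by
    unfold dd; ring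
  constructor <;> linarith [k0.1, k0.2, k1.1, k1.2, k2.1, k2.2]

/-- The map is affine, of admissible shape, on a half-neighbourhood of the ground point. -/
def Nice (F : V → V) (x : ℝ × ℝ) : Prop :=
  ∃ ρ : ℝ, 0 < ρ ∧ ∃ (c : Cl) (L : V →L[ℝ] V), Adm ρ c L ∧
    ∀ᶠ p : V in 𝓝 (gr x), 0 ≤ p 2 → F p = F (gr x) + L (p - gr x)

/-- The quantitative form of `Nice`. -/
structure Dat (F : V → V) (U : Set (ℝ × ℝ)) (η : ℝ) (x : ℝ × ℝ) (ρ : ℝ) (c : Cl)
    (L : V →L[ℝ] V) : Prop where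
  lo : η ≤ ρ
  hi : ρ * η ≤ dd (F (gr x))
  adm : Adm ρ c L
  sub : Metric.ball x η ⊆ U
  aff : ∀ p : V, dist p (gr x) < η → 0 ≤ p 2 → F p = F (gr x) + L (p - gr x)
  osc : ∀ p : V, dist p (gr x) < η → 0 ≤ p 2 → ‖F p - F (gr x)‖ ≤ 1 / 10 ^ 20 * dd (F (gr x))

def Off (lam : ℝ) (x : ℝ × ℝ) : Prop :=
  ∀ i : ℤ, lam * x.1 ≠ i ∧ lam * x.2 ≠ i ∧ lam * x.1 - lam * x.2 ≠ i

noncomputable def tr (lam : ℝ) (a b : Bool) (x : ℝ × ℝ) : ℝ × ℝ :=
  x + ((if a then 1 else 0) / lam, (if b then 1 else 0) / lam)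

lemma tr_shift {lam : ℝ} (h : lam ≠ 0) (a b : Bool) (x : ℝ × ℝ) :
    lam • gr (tr lam a b x) = lam • gr x + sh a b := by
  ext j; cases a <;> cases b <;> fin_cases j <;> simp [gr, tr, sh, mul_add, h]

/-- Properties of the modification over any square. -/
structure Mod (F g : V → V) (d : ℝ × ℝ → ℝ) (lam δ : ℝ) : Prop where
  lip : ∀ p, LL g p
  edge : ∀ p : V, -(1 / (2 * lam)) ≤ p 2 → d (pr p) ≤ 1 / lam → g p = 0
  high : ∀ p : V, δ ≤ p 2 → g p = 0
  der : ∀ᵐ p : V, 0 < p 2 → ∃ D : V →L[ℝ] V, HasFDerivAt (fun p => F p + g p) D p ∧ Gd D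
  bdd : ∀ p : V, ‖p‖ ≤ 3 → 0 ≤ p 2 → 0 < dd (F p + g p)

/-- Properties of the modification over an active square. -/
structure Act (F g : V → V) (d : ℝ × ℝ → ℝ) (lam w : ℝ) : Prop where
  nice : ∀ x, w < d x → Off lam x → Nice (fun p => F p + g p) x
  pot : ∀ x, (∀ a b, w - 1 / lam ≤ d (tr lam a b x)) →
    ∑ a, ∑ b, 1 / dd (F (gr (tr lam a b x)) + g (gr (tr lam a b x))) ≤
      4 * ((1 - 1 / 10 ^ 16) * (1 / dd (F (gr x))) + 4)
  step : ∀ x, w < d x → 1 / 10 ^ 11 * dd (F (gr x)) ≤ ‖g (gr x)‖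

lemma sq_le_pow (n : ℕ) : (n + 3) ^ 2 ≤ 16 * 2 ^ n := by
  induction n with
  | zero => norm_num
  | succ n ih =>
    have : n < 2 ^ n := Nat.lt_two_pow_self
    rw [pow_succ 2 n]; nlinarith

lemma exists_depth {η lam ρ D s : ℝ} (hη : 0 < η) (hs : 0 < s) (h1 : η ≤ ρ) (h2 : ρ * η ≤ D)
    (h3 : D ≤ 1) (hl1 : 10 ^ 16 / η ≤ lam) (hl2 : 16 / (η * s ^ 2) ≤ lam) :
    ∃ k : ℕ, (10000 : ℝ) ≤ 2 ^ k ∧ 1 / 10 ^ 10 * D ≤ 5 * ρ * 2 ^ (k + 3) / lam ∧
      5 * ρ * 2 ^ (k + 3) / lam ≤ 2 / 10 ^ 10 * D ∧ ((k + 3 : ℕ) : ℝ) + 3 ≤ s * lam := by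
  have hρ : 0 < ρ := hη.trans_le h1
  have hl : 0 < lam := lt_of_lt_of_le (by positivity) hl1
  rw [div_le_iff₀ hη] at hl1
  rw [div_le_iff₀ (by positivity)] at hl2
  set X := 1 / 10 ^ 10 * D * lam / (5 * ρ) with hX
  have hX1 : X * (5 * ρ) = 1 / 10 ^ 10 * D * lam := by rw [hX]; field_simp
  have hX2 : 200000 ≤ X := by
    rw [hX, le_div_iff₀ (by positivity)]
    nlinarith [mul_le_mul_of_nonneg_right h2 hl.le, mul_le_mul_of_nonneg_left hl1 hρ.le]
  obtain ⟨n, a, b⟩ := exists_nat_pow_near (x := X) (y := 2) (by linarith) (by norm_num)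
  have hn : 2 ≤ n := by
    by_contra hc
    have : (2 : ℝ) ^ (n + 1) ≤ 2 ^ 2 := pow_le_pow_right₀ (by norm_num) (by omega)
    linarith
  obtain ⟨k, rfl⟩ : ∃ k, n = k + 2 := ⟨n - 2, by omega⟩
  have e1 : (2 : ℝ) ^ (k + 2 + 1) = 8 * 2 ^ k := by ring
  have e2 : (2 : ℝ) ^ (k + 2) = 4 * 2 ^ k := by ring
  have e3 : (2 : ℝ) ^ (k + 3) = 8 * 2 ^ k := by ring
  rw [e1] at b
  rw [e2] at a
  refine ⟨k, by linarith, ?_, ?_, ?_⟩
  · rw [e3, le_div_iff₀ hl]; nlinarith
  · rw [e3, div_le_iff₀ hl]; nlinarith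
  · have h4 : (((k + 3 : ℕ) : ℝ) + 3) ^ 2 ≤ 16 * 2 ^ (k + 3) := by exact_mod_cast sq_le_pow (k + 3)
    have h5 : 8 * 2 ^ k * η ≤ lam := by
      have : X * (5 * η) ≤ lam := by
        nlinarith [mul_le_mul_of_nonneg_left h1 (show 0 ≤ X by linarith),
          mul_le_mul_of_nonneg_right h3 hl.le]
      nlinarith
    refine abs_le_of_sq_le_sq' ?_ (by positivity) |>.2
    rw [e3] at h4
    refine h4.trans (le_of_mul_le_mul_right ?_ hη)
    nlinarith [mul_le_mul_of_nonneg_right hl2 hl.le]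

theorem cell (H : PL) (HP : PullStmt) (HV : PotStmt) {F : V → V} {U : Set (ℝ × ℝ)} (hF : Base F U)
    {η lam w δ : ℝ} (hη : 0 < η) (hδ : 0 < δ) (hδ1 : δ ≤ η / 2) (hδ2 : δ ≤ w / 400000)
    (hl1 : 10 ^ 16 / η ≤ lam) (hl2 : 16 / (η * δ ^ 2) ≤ lam)
    {d : ℝ × ℝ → ℝ} (hd : LipschitzWith 1 d) {x0 : ℝ × ℝ} (hx : ∀ x, 0 < d x → dist x x0 < η)
    {ρ : ℝ} {c : Cl} {L : V →L[ℝ] V} (h : Dat F U η x0 ρ c L) :
    ∃ g, Mod F g d lam δ ∧ Act F g d lam w := by
  have hρ : 0 < ρ := hη.trans_le h.lo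
  have hl : 0 < lam := lt_of_lt_of_le (by positivity) hl1
  set y := F (gr x0) with hy
  have hD : 0 < dd y := lt_of_lt_of_le (by positivity) h.hi
  obtain ⟨k, k1, k2, k3, k4⟩ := exists_depth hη hδ h.lo h.hi (dd_le_one y) hl1 hl2
  set N : ℝ := ((k + 3 : ℕ) : ℝ) with hN
  have hN0 : 0 ≤ N := Nat.cast_nonneg _
  set r := 5 * ρ * 2 ^ (k + 3) / lam with hr
  set β : V := -((1 / 10 ^ 5 : ℝ) • y) with hβd
  have hβ : ‖β‖ ≤ 1 / 10 ^ 5 := by
    rw [hβd, norm_neg, norm_smul, Real.norm_of_nonneg (by positivity)]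
    nlinarith [norm_le_of_dd hD]
  set τ : V → ℝ := fun p => min N (lam / 400000 * d (pr p) - 1) with hτ
  have hτL : LipschitzWith (lam / 400000).toNNReal τ := by
    refine LipschitzWith.const_min (LipschitzWith.of_dist_le_mul fun p p' => ?_) N
    rw [dist_sub_right, Real.coe_toNNReal _ (by positivity), Real.dist_eq, ← mul_sub, abs_mul,
      abs_of_pos (by positivity)]
    have := hd.dist_le_mul (pr p) (pr p')
    rw [Real.dist_eq] at this
    gcongr
    exact this.trans (by simpa using dist_pr p p')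
  have hτe : ∀ p (s : ℝ), τ (p + s • e2) = τ p := fun p s => by simp [hτ, pr, e2]
  have hwl : N + 3 ≤ lam / 400000 * w := by nlinarith
  have hil : lam * (1 / lam) = 1 := by field_simp
  have hτN : ∀ p, w - 1 / lam ≤ d (pr p) → τ p = N := fun p hp => by
    refine min_eq_left ?_
    nlinarith [mul_le_mul_of_nonneg_left hp hl.le]
  have hwpos : 0 < w - 1 / lam := by
    by_contra hc
    nlinarith [mul_le_mul_of_nonneg_left (not_lt.1 hc) hl.le]
  set g := gad c β ρ lam τ with hg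
  have hedge : ∀ p : V, -(1 / (2 * lam)) ≤ p 2 → d (pr p) ≤ 1 / lam → g p = 0 := by
    intro p h1 h2
    refine gad_zero H _ _ _ _ _ _ ((min_le_right _ _).trans ?_)
    have e : lam * (1 / (2 * lam)) = 1 / 2 := by field_simp
    nlinarith [mul_le_mul_of_nonneg_left h1 hl.le, mul_le_mul_of_nonneg_left h2 hl.le]
  have hhigh : ∀ p : V, δ ≤ p 2 → g p = 0 := by
    intro p h1
    refine gad_zero H _ _ _ _ _ _ ((min_le_left _ _).trans ?_)
    nlinarith [mul_le_mul_of_nonneg_left h1 hl.le]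
  have hcd : Continuous fun p : V => d (pr p) := hd.continuous.comp (by unfold pr; fun_prop)
  have hin : ∀ p : V, 0 < d (pr p) → 0 ≤ p 2 → p 2 < η → dist p (gr x0) < η :=
    fun p a b e => dist_gr_lt (hx _ a) b e
  have hval : ∀ x, ∃ ξ : V, ‖ξ‖ ≤ 1 ∧ 1 / 3 ≤ ‖ξ‖ ∧ ∀ a b, w - 1 / lam ≤ d (tr lam a b x) →
      g (gr (tr lam a b x)) = r • (flip a b ξ + β) := by
    intro x
    obtain ⟨ξ, a1, a2, a3⟩ := ground_val H c β (k + 1) (lam • gr x - N • e2)
      (by simp [gr, e2, hN]; ring)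
    refine ⟨ξ, a1, a2, fun a b hab => ?_⟩
    have e : lam • gr (tr lam a b x) - N • e2 = lam • gr x - N • e2 + sh a b := by
      rw [tr_shift hl.ne', add_sub_right_comm]
    rw [hg, gad, hτN (gr (tr lam a b x)) hab, e, a3, smul_smul]
    congr 1; rw [hr]; ring
  refine ⟨g, ⟨gad_lip H c β ρ lam hτL, hedge, hhigh, ?_, ?_⟩, ⟨?_, ?_, ?_⟩⟩
  · filter_upwards [hF.der, gad_der H HP c β hβ hρ hl hτL
      (by rw [Real.coe_toNNReal _ (by positivity)]) hτe] with p h1 ⟨D, h2, h3⟩ hp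
    have hc2 : ContinuousAt (fun p : V => p 2) p := (continuous_apply 2).continuousAt
    have hp' : ∀ᶠ p' : V in 𝓝 p, 0 < p' 2 := continuousAt_const.eventually_lt hc2 hp
    by_cases hc : 0 < d (pr p) ∧ p 2 < η
    · refine ⟨L + D, HasFDerivAt.add ?_ h2, h3 L h.adm⟩
      have h4 : HasFDerivAt (fun p : V => y + L (p - gr x0)) L p := by
        simp only [map_sub]
        exact (L.hasFDerivAt.sub_const _).const_add _
      refine h4.congr_of_eventuallyEq ?_
      filter_upwards [hp', Metric.isOpen_ball.mem_nhds (hin p hc.1 hp.le hc.2)] with p' a b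
      exact h.aff p' b a.le
    · obtain ⟨D', h4, h5⟩ := h1 hp
      refine ⟨D', h4.congr_of_eventuallyEq ?_, h5⟩
      rw [not_and_or, not_lt, not_lt] at hc
      rcases hc with hc | hc
      · filter_upwards [hp', hcd.continuousAt.eventually_lt continuousAt_const
          (hc.trans_lt (show 0 < 1 / lam by positivity))] with p' a b
        rw [hedge p' (le_trans (neg_nonpos.2 (by positivity)) a.le) b.le, add_zero]
      · filter_upwards [continuousAt_const.eventually_lt hc2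
          (show δ < p 2 by linarith)] with p' a
        rw [hhigh p' a.le, add_zero]
  · intro p h1 hp
    by_cases hc : 0 < d (pr p) ∧ p 2 < η
    · have a1 := h.osc p (hin p hc.1 hp hc.2) hp
      have a2 := gad_bound H c β hβ hρ hl τ (k + 3) (by omega) p hp (min_le_left _ _)
      refine (dd_near hD ?_).1
      rw [add_sub_right_comm]
      exact (norm_add_le _ _).trans (by linarith)
    · rw [not_and_or, not_lt, not_lt] at hc
      have : g p = 0 := by
        rcases hc with hc | hc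
        · exact hedge p (le_trans (neg_nonpos.2 (by positivity)) hp) (hc.trans (by positivity))
        · exact hhigh p (by linarith)
      rw [this, add_zero]; exact hF.bdd p h1 hp
  · intro x hw ho
    have hil0 : 0 < 1 / lam := by positivity
    obtain ⟨c', M, m1, m2⟩ := ground_aff H c β k (lam • gr x - N • e2) (by simp [gr, e2, hN])
      (fun i => by simpa [gr, e2] using (ho i).1) (fun i => by simpa [gr, e2] using (ho i).2.1)
      (fun i => by simpa [gr, e2] using (ho i).2.2)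
    have hxin : dist (gr x) (gr x0) < η := hin (gr x) (by rw [pr_gr]; linarith) le_rfl hη
    refine ⟨ρ * (20 * 2 ^ k), by positivity, c', L + ρ • M, fun i j => ?_, ?_⟩
    · have a1 := abs_le.1 (h.adm i j)
      have a2 : |(Zc c i j : ℝ)| ≤ 4 := by exact_mod_cast cert3 c i j
      have a3 : |if i = 2 then β j else 0| ≤ 1 / 10 ^ 5 := by
        split_ifs
        · exact (norm_le_pi_norm β j).trans hβ
        · simp
      have e : col (L + ρ • M) i j = col L i j + ρ * col M i j := rfl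
      rw [e, m1]
      rw [abs_le] at a2 a3 ⊢
      generalize (if i = 2 then β j else 0) = t at a3 ⊢
      have b1 : 0 < ρ * 2 ^ k := by positivity
      have b2 := mul_le_mul_of_nonneg_left k1 hρ.le
      constructor <;> nlinarith [a1.1, a1.2, mul_le_mul_of_nonneg_left a2.1 hρ.le,
        mul_le_mul_of_nonneg_left a2.2 hρ.le, mul_le_mul_of_nonneg_left a3.1 b1.le,
        mul_le_mul_of_nonneg_left a3.2 b1.le]
    · have hcA : ContinuousAt (fun p : V => lam • p - N • e2) (gr x) := by fun_prop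
      filter_upwards [hcA.eventually m2, Metric.isOpen_ball.mem_nhds hxin,
        continuousAt_const.eventually_lt (hcd.continuousAt (x := gr x))
          (show w - 1 / lam < d (pr (gr x)) by rw [pr_gr]; linarith)] with p a1 a2 a3 hp
      have a4 := a1 (by simp [gr, e2]; positivity)
      rw [h.aff p a2 hp, h.aff (gr x) hxin le_rfl, hg, gad, gad, hτN p a3.le,
        hτN (gr x) (by rw [pr_gr]; linarith), a4, sub_sub_sub_cancel_right, ← smul_sub, map_smul,
        smul_add, smul_smul, div_mul_cancel₀ _ hl.ne', add_apply, smul_apply, map_sub L,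
        map_sub L, map_sub L]
      abel
  · intro x hx'
    obtain ⟨ξ, a1, -, a3⟩ := hval x
    have := HV y ξ (fun a b => F (gr (tr lam a b x))) r hD a1
      (fun a b => h.osc _ (hin _ (by rw [pr_gr]; linarith [hx' a b]) le_rfl hη) le_rfl) k2 k3
    have e : tr lam false false x = x := by simp [tr]
    simp only [e] at this
    refine le_trans (le_of_eq ?_) this
    refine Finset.sum_congr rfl fun a _ => Finset.sum_congr rfl fun b _ => ?_
    rw [a3 a b (hx' a b), hβd, ← sub_eq_add_neg]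
  · intro x hw
    have hil0 : 0 < 1 / lam := by positivity
    obtain ⟨ξ, -, a2, a3⟩ := hval x
    have e : tr lam false false x = x := by simp [tr]
    have e' : flip false false ξ = ξ := by ext j; fin_cases j <;> simp [flip]
    have a4 := a3 false false (by rw [e]; linarith)
    rw [e, e'] at a4
    have a5 := h.osc (gr x) (hin _ (by rw [pr_gr]; linarith) le_rfl hη) le_rfl
    have a6 := (dd_near hD (a5.trans (by linarith))).2
    have a7 : ‖ξ‖ - ‖β‖ ≤ ‖ξ + β‖ := by simpa using norm_sub_norm_le ξ (-β)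
    have hr0 : 0 < r := by positivity
    rw [a4, norm_smul, Real.norm_of_nonneg hr0.le]
    have a8 := mul_le_mul_of_nonneg_left (show 1 / 4 ≤ ‖ξ + β‖ by linarith) hr0.le
    linarith

lemma mod_zero {F : V → V} {U : Set (ℝ × ℝ)} (hF : Base F U) (d : ℝ × ℝ → ℝ) (lam δ : ℝ) :
    Mod F (fun _ => 0) d lam δ :=
  ⟨fun _ => ⟨0, univ, univ_mem, (LipschitzWith.const 0).lipschitzOnWith⟩, fun _ _ _ => rfl,
    fun _ _ => rfl, by simpa using hF.der, by simpa using hF.bdd⟩

end Pool.Agent.MP_16e930_an.H27
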