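import Pool.Agent.MP_16e930_an.H27.Model2

/-! The sheared and rescaled model map. -/

set_option autoImplicit false
open MeasureTheory Filter Topology Set

namespace Pool.Agent.MP_16e930_an.H27

def e2 : V := Pi.single 2 1

/-- Linear maps close to one of the eight standard shapes. -/
def Adm (ρ : ℝ) (c : Cl) (L : V →L[ℝ] V) : Prop :=
  ∀ i j, |col L i j - ρ * (Zc c i j : ℝ)| ≤ ρ / 20000

noncomputable def gad (c : Cl) (β : V) (ρ lam : ℝ) (τ : V → ℝ) (p : V) : V :=
  (ρ / lam) • interp (om c β) (lam • p - τ p • e2)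

/-- The linear map with given columns. -/
noncomputable def ofCols (c : Fin 3 → V) : V →L[ℝ] V :=
  ∑ i, (ContinuousLinearMap.proj i : V →L[ℝ] ℝ).smulRight (c i)

lemma ofCols_apply (c : Fin 3 → V) (z : V) : ofCols c z = ∑ i, z i • c i := by
  simp [ofCols]

lemma col_ofCols (c : Fin 3 → V) (i : Fin 3) : col (ofCols c) i = c i := by
  simp [col, ofCols_apply, Pi.single_apply]

lemma lip_e2 {τ : V → ℝ} {K : NNReal} (h : LipschitzWith K τ) :
    ∃ K', LipschitzWith K' fun p => τ p • e2 :=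
  ⟨_, (ContinuousLinearMap.toSpanSingleton ℝ e2).lipschitz.comp h⟩

lemma gad_lip (H : PL) (c : Cl) (β : V) (ρ lam : ℝ) {τ : V → ℝ} {K : NNReal}
    (h : LipschitzWith K τ) (p : V) : LL (gad c β ρ lam τ) p := by
  obtain ⟨K', h'⟩ := lip_e2 h
  have h1 : LocallyLipschitz (interp (om c β)) := H.lip _
  have h2 : LocallyLipschitz fun p : V => lam • p - τ p • e2 :=
    ((lipschitzWith_smul lam).sub h').locallyLipschitz
  exact ((lipschitzWith_smul (ρ / lam)).locallyLipschitz.comp (h1.comp h2)) p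

lemma gad_zero (H : PL) (c : Cl) (β : V) (ρ lam : ℝ) (τ : V → ℝ) (p : V) (h : τ p ≤ lam * p 2) :
    gad c β ρ lam τ p = 0 := by
  have := H.bound (om c β) (lam • p - τ p • e2) 0 0 (by simp [e2]; linarith)
    (fun m hm => by simp [om_zero c β m hm])
  simp [gad, norm_le_zero_iff.1 this]

lemma gad_bound (H : PL) (c : Cl) (β : V) (hβ : ‖β‖ ≤ 1 / 10 ^ 5) {ρ lam : ℝ} (hρ : 0 < ρ)
    (hl : 0 < lam) (τ : V → ℝ) (n : ℕ) (hn : 2 ≤ n) (p : V) (hp : 0 ≤ p 2) (h : τ p ≤ n) :
    ‖gad c β ρ lam τ p‖ ≤ 2 * (5 * ρ * 2 ^ n / lam) := by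
  have h1 : 0 ≤ lam * p 2 := by positivity
  have := H.bound (om c β) (lam • p - τ p • e2) (-(n : ℤ)) (10 * 2 ^ n) (by simp [e2]; linarith)
    (fun m hm => om_bound c β hβ n hn m hm)
  rw [gad, norm_smul, Real.norm_of_nonneg (by positivity)]
  calc ρ / lam * ‖interp (om c β) (lam • p - τ p • e2)‖ ≤ ρ / lam * (10 * 2 ^ n) := by gcongr
    _ = _ := by ring

lemma gad_der (H : PL) (HP : PullStmt) (c : Cl) (β : V) (hβ : ‖β‖ ≤ 1 / 10 ^ 5) {ρ lam : ℝ}
    (hρ : 0 < ρ) (hl : 0 < lam) {τ : V → ℝ} {K : NNReal} (h : LipschitzWith K τ)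
    (hK : (K : ℝ) ≤ lam / 400000) (hτ : ∀ p (s : ℝ), τ (p + s • e2) = τ p) :
    ∀ᵐ p : V, ∃ D : V →L[ℝ] V, HasFDerivAt (gad c β ρ lam τ) D p ∧
      ∀ L, Adm ρ c L → Gd (L + D) := by
  obtain ⟨K', h'⟩ := lip_e2 (h.comp (lipschitzWith_smul lam⁻¹))
  have hB := (lipschitzWith_smul lam⁻¹).comp (LipschitzWith.id.add h')
  have hg := HP (fun p => lam • p - τ p • e2) _ _ hB (fun p => by
    have e : lam⁻¹ • (lam • p - τ p • e2) = p + (-(lam⁻¹ * τ p)) • e2 := by
      rw [smul_sub, inv_smul_smul₀ hl.ne', smul_smul, neg_smul, sub_eq_add_neg]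
    simp only [Function.comp, id, e, hτ]
    rw [sub_add_cancel, inv_smul_smul₀ hl.ne']) _ H.generic
  filter_upwards [hg, h.ae_differentiableAt (μ := volume)] with p ⟨m, o, hm⟩ hd
  have hA : HasFDerivAt (fun p : V => lam • p - τ p • e2)
      (lam • ContinuousLinearMap.id ℝ V - (fderiv ℝ τ p).smulRight e2) p :=
    ((hasFDerivAt_id p).const_smul lam).sub (hd.hasFDerivAt.smul_const e2)
  have hW : HasFDerivAt (interp (om c β)) (ofCols (dif (om c β) m o)) (lam • p - τ p • e2) := by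
    have h1 : HasFDerivAt (fun w : V => om c β m + ofCols (dif (om c β) m o) (w - fun i => (m i : ℝ)))
        (ofCols (dif (om c β) m o)) (lam • p - τ p • e2) := by
      simp only [map_sub]
      exact ((ofCols _).hasFDerivAt.sub_const _).const_add _
    refine h1.congr_of_eventuallyEq ?_
    filter_upwards [hm] with w hw
    rw [H.formula _ m o w hw, ofCols_apply]; rfl
  refine ⟨_, (hW.comp p hA).const_smul (ρ / lam), fun L hL => ?_⟩
  obtain ⟨σ, hσ, h1, h2⟩ := model_good c β hβ m o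
  have hT : ∀ i, |fderiv ℝ τ p (Pi.single i 1)| ≤ lam / 400000 := by
    intro i
    have := (fderiv ℝ τ p).le_opNorm (Pi.single i 1)
    rw [Pi.norm_single, norm_one, mul_one, Real.norm_eq_abs] at this
    exact this.trans ((norm_fderiv_le_of_lipschitz ℝ h).trans hK)
  set B : Fin 3 → V := fun i j => (col L i j - ρ * (Zc c i j : ℝ)) / ρ -
    fderiv ℝ τ p (Pi.single i 1) / lam * dif (om c β) m o 2 j with hBd
  have hB' : ∀ i j, |B i j| ≤ σ / 10000 := by
    intro i j
    have a1 : |(col L i j - ρ * (Zc c i j : ℝ)) / ρ| ≤ 1 / 20000 := by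
      rw [abs_div, abs_of_pos hρ, div_le_iff₀ hρ]; linarith [hL i j]
    have a2 : |fderiv ℝ τ p (Pi.single i 1) / lam| ≤ 1 / 400000 := by
      rw [abs_div, abs_of_pos hl, div_le_iff₀ hl]; linarith [hT i]
    have a3 : |fderiv ℝ τ p (Pi.single i 1) / lam * dif (om c β) m o 2 j| ≤
        1 / 400000 * (20 * σ) := by
      rw [abs_mul]; gcongr; exact h1 j
    exact (abs_sub _ _).trans (by linarith)
  obtain ⟨h3, h4⟩ := h2 B hB'
  have he : ∀ i, col (L + (ρ / lam) • (ofCols (dif (om c β) m o)).comp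
      (lam • ContinuousLinearMap.id ℝ V - (fderiv ℝ τ p).smulRight e2)) i =
      ρ • fun j => (Zc c i j : ℝ) + dif (om c β) m o i j + B i j := by
    intro i
    have a1 := col_ofCols (dif (om c β) m o) i
    have a2 := col_ofCols (dif (om c β) m o) 2
    simp only [col] at a1 a2
    ext j
    simp only [col, add_apply, smul_apply,
      ContinuousLinearMap.comp_apply, sub_apply, ContinuousLinearMap.id_apply,
      ContinuousLinearMap.smulRight_apply, map_sub, map_smul, e2, a1, a2, hBd, Pi.add_apply,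
      Pi.smul_apply, Pi.sub_apply, smul_eq_mul]
    field_simp
    ring
  refine ⟨ρ * σ, by positivity, fun i j => ?_, ?_⟩
  · rw [he, Pi.smul_apply, smul_eq_mul, abs_mul, abs_of_pos hρ]
    nlinarith [h3 i j]
  · rw [he, he, he, det3_smul, mul_pow]
    gcongr

/-- The shift to one of the four neighbouring cells. -/
def sh (a b : Bool) : V := ![if a then 1 else 0, if b then 1 else 0, 0]

lemma om_tail (c : Cl) (β : V) (k : ℕ) (m : Fin 3 → ℤ) (hm : m 2 = -((k + 2 : ℕ) : ℤ))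
    (a0 b0 a b : Bool) (h0 : par (m 0) = xor a0 a) (h1 : par (m 1) = xor b0 b) :
    om c β m = (20 * 2 ^ k : ℝ) • (flip a b (fun j => (tab c a0 b0 2 j : ℝ) / 20) + β) := by
  have hn : (-m 2).toNat = k + 2 := by omega
  ext j
  simp only [om, hn, h0, h1, mu, Nat.succ_ne_zero, if_false, Pi.add_apply,
    Pi.smul_apply, smul_eq_mul]
  rw [tab_tail, cert6]
  cases a <;> cases b <;> fin_cases j <;> simp [flip, flipZ] <;> ring

lemma ground_val (H : PL) (c : Cl) (β : V) (k : ℕ) (z : V) (hz : z 2 = -((k + 2 : ℕ) : ℝ)) :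
    ∃ η : V, ‖η‖ ≤ 1 ∧ 1 / 3 ≤ ‖η‖ ∧
      ∀ a b, interp (om c β) (z + sh a b) = (20 * 2 ^ k : ℝ) • (flip a b η + β) := by
  set T : V := fun j => (tab c (par ⌊z 0⌋) (par ⌊z 1⌋) 2 j : ℝ) / 20 with hT
  have hT1 : ∀ j, |T j| = 1 := by
    intro j
    have : |(tab c (par ⌊z 0⌋) (par ⌊z 1⌋) 2 j : ℝ)| = 20 := by exact_mod_cast (cert5 c _ _ j).2.1
    simp only [hT, abs_div, this]; norm_num
  have a0 := Int.floor_le (z 0)
  have a1 := Int.lt_floor_add_one (z 0)
  have b0 := Int.floor_le (z 1)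
  have b1 := Int.lt_floor_add_one (z 1)
  set u := z 0 - ⌊z 0⌋ with hu
  set v := z 1 - ⌊z 1⌋ with hv
  have u0 : 0 ≤ u := by linarith
  have u1 : u < 1 := by linarith
  have v0 : 0 ≤ v := by linarith
  have v1 : v < 1 := by linarith
  refine ⟨![T 0 * (1 - 2 * u), T 1 * (1 - 2 * v), T 2 * (1 - 2 * |u - v|)], ?_, ?_, ?_⟩
  · rw [pi_norm_le_iff_of_nonneg zero_le_one]
    have : |u - v| ≤ 1 := abs_le.2 ⟨by linarith, by linarith⟩
    have := abs_nonneg (u - v)
    intro j
    fin_cases j <;> simp [hT1] <;> rw [abs_le] <;> constructor <;> linarith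
  · by_contra hc
    rw [not_le, pi_norm_lt_iff (by norm_num)] at hc
    have c0 := hc 0
    have c1 := hc 1
    have c2 := hc 2
    simp [hT1, abs_lt] at c0 c1 c2
    have : |u - v| < 1 / 3 := abs_lt.2 ⟨by linarith, by linarith⟩
    linarith
  · intro a b
    set m : Fin 3 → ℤ := ![⌊z 0⌋ + if a then 1 else 0, ⌊z 1⌋ + if b then 1 else 0,
      -((k + 2 : ℕ) : ℤ)] with hm
    have hd0 : (z + sh a b) 0 - m 0 = u := by cases a <;> simp [hm, sh, hu]
    have hd1 : (z + sh a b) 1 - m 1 = v := by cases b <;> simp [hm, sh, hv]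
    have hd2 : (z + sh a b) 2 - m 2 = 0 := by simp [hm, sh, hz]
    have hbox : ∀ i, (m i : ℝ) ≤ (z + sh a b) i ∧ (z + sh a b) i ≤ m i + 1 := by
      intro i
      fin_cases i
      · exact ⟨by change (m 0 : ℝ) ≤ (z + sh a b) 0; linarith,
          by change (z + sh a b) 0 ≤ m 0 + 1; linarith⟩
      · exact ⟨by change (m 1 : ℝ) ≤ (z + sh a b) 1; linarith,
          by change (z + sh a b) 1 ≤ m 1 + 1; linarith⟩
      · exact ⟨by change (m 2 : ℝ) ≤ (z + sh a b) 2; linarith,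
          by change (z + sh a b) 2 ≤ m 2 + 1; linarith⟩
    have hv' : ∀ (o : Fin 6) (s : ℕ), ¬ rk o 2 < s → om c β (vert m o s) = (20 * 2 ^ k : ℝ) •
        (flip (xor a (decide (rk o 0 < s))) (xor b (decide (rk o 1 < s))) T + β) := by
      intro o s hs
      refine om_tail c β k _ (by simp [vert, hs, hm]) _ _ _ _ ?_ ?_
      · simp only [vert, hm, Matrix.cons_val_zero, par_add, Bool.decide_eq_true, Bool.xor_assoc]
      · simp only [vert, hm, Matrix.cons_val_zero, Matrix.cons_val_one, par_add,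
          Bool.decide_eq_true, Bool.xor_assoc]
    have hm0 : ∀ o, om c β m = om c β (vert m o 0) := fun o => by
      congr 1; ext j; simp [vert]
    rcases le_total v u with h | h
    · have hS : InS m 0 (z + sh a b) := ⟨hbox, fun i j hij => by
        fin_cases i <;> fin_cases j <;> simp [rk] at hij <;>
          simp only [Fin.zero_eta, Fin.mk_one, Fin.reduceFinMk, hd0, hd1, hd2] <;> linarith⟩
      rw [H.formula _ m 0 _ hS, Fin.sum_univ_three, hd0, hd1, hd2, zero_smul, add_zero, hm0 0,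
        dif, dif, hv' 0 _ (by decide), hv' 0 _ (by decide), hv' 0 _ (by decide),
        hv' 0 _ (by decide), hv' 0 _ (by decide), abs_of_nonneg (sub_nonneg.2 h)]
      ext j
      cases a <;> cases b <;> fin_cases j <;> simp [flip, rk] <;> ring
    · have hS : InS m 1 (z + sh a b) := ⟨hbox, fun i j hij => by
        fin_cases i <;> fin_cases j <;> simp [rk] at hij <;>
          simp only [Fin.zero_eta, Fin.mk_one, Fin.reduceFinMk, hd0, hd1, hd2] <;> linarith⟩
      rw [H.formula _ m 1 _ hS, Fin.sum_univ_three, hd0, hd1, hd2, zero_smul, add_zero, hm0 1,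
        dif, dif, hv' 1 _ (by decide), hv' 1 _ (by decide), hv' 1 _ (by decide),
        hv' 1 _ (by decide), hv' 1 _ (by decide), abs_of_nonpos (sub_nonpos.2 h)]
      ext j
      cases a <;> cases b <;> fin_cases j <;> simp [flip, rk] <;> ring

/-- Near a generic ground point of a tail level the model is affine on the upper side. -/
lemma ground_aff (H : PL) (c : Cl) (β : V) (k : ℕ) (z : V) (hz : z 2 = -((k + 3 : ℕ) : ℝ))
    (h0 : ∀ i : ℤ, z 0 ≠ i) (h1 : ∀ i : ℤ, z 1 ≠ i) (h2 : ∀ i : ℤ, z 0 - z 1 ≠ i) :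
    ∃ (c' : Cl) (M : V →L[ℝ] V),
      (∀ i j, col M i j = 20 * 2 ^ k * ((Zc c' i j : ℝ) - if i = 2 then β j else 0)) ∧
      ∀ᶠ w in 𝓝 z, z 2 ≤ w 2 → interp (om c β) w = interp (om c β) z + M (w - z) := by
  set m : Fin 3 → ℤ := ![⌊z 0⌋, ⌊z 1⌋, -((k + 3 : ℕ) : ℤ)] with hm
  have a0 : (m 0 : ℝ) < z 0 := (Int.floor_le (z 0)).lt_of_ne (h0 _).symm
  have a1 : z 0 < m 0 + 1 := Int.lt_floor_add_one (z 0)
  have b0 : (m 1 : ℝ) < z 1 := (Int.floor_le (z 1)).lt_of_ne (h1 _).symm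
  have b1 : z 1 < m 1 + 1 := Int.lt_floor_add_one (z 1)
  have c0 : (m 2 : ℝ) = z 2 := by simp [hm, hz]
  have hne : z 0 - m 0 ≠ z 1 - m 1 := fun h => h2 (m 0 - m 1) (by push_cast; linarith)
  have hc : ∀ i : Fin 3, Continuous fun w : V => w i := fun i => continuous_apply i
  have hc' : ∀ i : Fin 3, ContinuousAt (fun w : V => w i - (m i : ℝ)) z :=
    fun i => ((hc i).sub continuous_const).continuousAt
  have key : ∀ o : Fin 6, o = 0 ∨ o = 1 → (∀ᶠ w in 𝓝 z, z 2 ≤ w 2 → InS m o w) →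
      ∃ (c' : Cl) (M : V →L[ℝ] V),
      (∀ i j, col M i j = 20 * 2 ^ k * ((Zc c' i j : ℝ) - if i = 2 then β j else 0)) ∧
      ∀ᶠ w in 𝓝 z, z 2 ≤ w 2 → interp (om c β) w = interp (om c β) z + M (w - z) := by
    intro o ho hS
    obtain ⟨c', hc'⟩ := dif_ground c β k m (by simp [hm]) o ho
    refine ⟨c', ofCols (dif (om c β) m o), fun i j => by rw [col_ofCols, hc'], ?_⟩
    filter_upwards [hS] with w hw hw2
    rw [H.formula _ m o w (hw hw2), H.formula _ m o z (hS.self_of_nhds le_rfl), ofCols_apply,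
      add_assoc, ← Finset.sum_add_distrib]
    congr 1
    refine Finset.sum_congr rfl fun i _ => ?_
    rw [← add_smul, Pi.sub_apply]; congr 1; ring
  have e0 := continuous_const.continuousAt.eventually_lt (hc 0).continuousAt a0
  have e1 := (hc 0).continuousAt.eventually_lt continuous_const.continuousAt a1
  have e2 := continuous_const.continuousAt.eventually_lt (hc 1).continuousAt b0
  have e3 := (hc 1).continuousAt.eventually_lt continuous_const.continuousAt b1
  have e4 : ∀ᶠ w : V in 𝓝 z, w 2 - m 2 < w 0 - m 0 :=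
    ContinuousAt.eventually_lt (hc' _) (hc' _) (by linarith)
  have e5 : ∀ᶠ w : V in 𝓝 z, w 2 - m 2 < w 1 - m 1 :=
    ContinuousAt.eventually_lt (hc' _) (hc' _) (by linarith)
  have hbox : ∀ᶠ w : V in 𝓝 z, z 2 ≤ w 2 → ∀ i, (m i : ℝ) ≤ w i ∧ w i ≤ m i + 1 := by
    filter_upwards [e0, e1, e2, e3, e4] with w d0 d1 d2 d3 d4 hw i
    fin_cases i
    · exact ⟨d0.le, d1.le⟩
    · exact ⟨d2.le, d3.le⟩
    · exact ⟨by change (m 2 : ℝ) ≤ w 2; linarith, by change w 2 ≤ m 2 + 1; linarith⟩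
  rcases lt_or_gt_of_ne hne with h | h
  · have e6 : ∀ᶠ w : V in 𝓝 z, w 0 - m 0 < w 1 - m 1 :=
      ContinuousAt.eventually_lt (hc' _) (hc' _) h
    refine key 1 (Or.inr rfl) ?_
    filter_upwards [hbox, e4, e5, e6] with w d0 d4 d5 d6 hw
    exact ⟨d0 hw, fun i j hij => by
      fin_cases i <;> fin_cases j <;> simp [rk] at hij <;>
        simp only [Fin.zero_eta, Fin.mk_one, Fin.reduceFinMk] <;> linarith⟩
  · have e6 : ∀ᶠ w : V in 𝓝 z, w 1 - m 1 < w 0 - m 0 :=
      ContinuousAt.eventually_lt (hc' _) (hc' _) h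
    refine key 0 (Or.inl rfl) ?_
    filter_upwards [hbox, e4, e5, e6] with w d0 d4 d5 d6 hw
    exact ⟨d0 hw, fun i j hij => by
      fin_cases i <;> fin_cases j <;> simp [rk] at hij <;>
        simp only [Fin.zero_eta, Fin.mk_one, Fin.reduceFinMk] <;> linarith⟩

end Pool.Agent.MP_16e930_an.H27
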