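import Pool.Agent.MP_16e930_an.H27.Spec

/-!
The iteration: from one step of the construction to the theorem in the half-space.
-/

set_option autoImplicit false
open MeasureTheory Filter Topology Set
open scoped ENNReal

namespace Pool.Agent.MP_16e930_an.H27

namespace Iter

theorem ll_cont {F : V → V} {p : V} (h : LL F p) : ContinuousAt F p := by
  obtain ⟨K, t, ht, hK⟩ := h
  exact hK.continuousOn.continuousAt ht

theorem ll_congr {F G : V → V} {p : V} (h : LL F p) (e : G =ᶠ[𝓝 p] F) : LL G p := by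
  obtain ⟨K, t, ht, hK⟩ := h
  refine ⟨K, t ∩ {x | G x = F x}, inter_mem ht e, ?_⟩
  intro x hx y hy
  rw [hx.2, hy.2]
  exact hK hx.1 hy.1

/-- Uniform continuity on the compact part of the closed half-space. -/
def UC (F : V → V) (e d : ℝ) : Prop :=
  ∀ p p' : V, ‖p‖ ≤ 3 → 0 ≤ p 2 → ‖p'‖ ≤ 3 → 0 ≤ p' 2 → dist p p' ≤ 10 * e → dist (F p) (F p') ≤ d

theorem uc_exists {F : V → V} {U : Set (ℝ × ℝ)} (h : Base F U) {d b : ℝ} (hd : 0 < d) (hb : 0 < b) :
    ∃ e, 0 < e ∧ e ≤ b ∧ UC F e d := by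
  have hc : IsCompact (Metric.closedBall (0 : V) 3 ∩ {p : V | 0 ≤ p 2}) :=
    (isCompact_closedBall _ _).inter_right (isClosed_le continuous_const (continuous_apply 2))
  have hu := hc.uniformContinuousOn_of_continuous
    (fun p hp => (ll_cont (h.lip p hp.2)).continuousWithinAt)
  obtain ⟨δ, hδ, H⟩ := Metric.uniformContinuousOn_iff_le.1 hu d hd
  refine ⟨min (δ / 10) b, lt_min (by linarith) hb, min_le_right _ _, ?_⟩
  intro p p' h1 h2 h3 h4 h5
  refine H p ⟨by simpa using h1, h2⟩ p' ⟨by simpa using h3, h4⟩ ?_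
  have := min_le_left (δ / 10) b
  linarith

/-- One step of the construction, with the additive constant outside the integral. -/
def StepForP (I : (V → V) → Set (ℝ × ℝ) → Prop) (q c : ℝ) : Prop :=
  ∀ F U, I F U → ∀ ε : ℝ, 0 < ε → ∃ F' U', I F' U' ∧ U' ⊆ U ∧ (∀ p : V, ε ≤ p 2 → F' p = F p) ∧
    volume U ≤ volume U' + ENNReal.ofReal ε ∧
    (∫⁻ x in U', pot F' x) ≤ ENNReal.ofReal q * (∫⁻ x in U, pot F x) + 4 ∧
    ∀ x ∈ U', c * dd (F (gr x)) ≤ ‖F' (gr x) - F (gr x)‖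

/-- The input of the iteration, with the additive constant outside the integral. -/
def StepStmtP : Prop :=
  ∃ (I : (V → V) → Set (ℝ × ℝ) → Prop) (q c : ℝ), 0 ≤ q ∧ q < 1 ∧ 0 < c ∧
    (∀ F U, I F U → Base F U) ∧ StepForP I q c ∧
    ∃ F, I F Sq ∧ ∀ x ∈ Sq, 1 / 2 ≤ dd (F (gr x))

/-- The relation between two consecutive states. -/
def Rel (q c : ℝ) (F : V → V) (U : Set (ℝ × ℝ)) (ε : ℝ) (F' : V → V) (U' : Set (ℝ × ℝ)) : Prop :=
  U' ⊆ U ∧ (∀ p : V, ε ≤ p 2 → F' p = F p) ∧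
    volume U ≤ volume U' + ENNReal.ofReal ε ∧
    (∫⁻ x in U', pot F' x) ≤ ENNReal.ofReal q * (∫⁻ x in U, pot F x) + 4 ∧
    ∀ x ∈ U', c * dd (F (gr x)) ≤ ‖F' (gr x) - F (gr x)‖

theorem seq_exists {I : (V → V) → Set (ℝ × ℝ) → Prop} {q c : ℝ} (hB : ∀ F U, I F U → Base F U)
    (hS : StepForP I q c) {F₀ : V → V} (h₀ : I F₀ Sq) :
    ∃ (F : ℕ → V → V) (U : ℕ → Set (ℝ × ℝ)) (e : ℕ → ℝ), F 0 = F₀ ∧ U 0 = Sq ∧
      (∀ k, I (F k) (U k)) ∧ (∀ k, 0 < e k) ∧ (∀ k, e k ≤ (1 / 2) ^ k / 64) ∧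
      (∀ k, e (k + 1) ≤ e k) ∧ (∀ k, UC (F k) (e k) ((1 / 2) ^ k)) ∧
      ∀ k, Rel q c (F k) (U k) (e k) (F (k + 1)) (U (k + 1)) := by
  let T : Type := {s : (V → V) × Set (ℝ × ℝ) × ℝ // I s.1 s.2.1 ∧ 0 < s.2.2}
  have step : ∀ (k : ℕ) (s : T), ∃ s' : T, s'.1.2.2 ≤ (1 / 2) ^ (k + 1) / 64 ∧
      s'.1.2.2 ≤ s.1.2.2 ∧ UC s'.1.1 s'.1.2.2 ((1 / 2) ^ (k + 1)) ∧
      Rel q c s.1.1 s.1.2.1 s.1.2.2 s'.1.1 s'.1.2.1 := by
    intro k s
    obtain ⟨F', U', hI, hR⟩ := hS s.1.1 s.1.2.1 s.2.1 s.1.2.2 s.2.2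
    obtain ⟨e, he, heb, huc⟩ := uc_exists (hB _ _ hI) (d := (1 / 2) ^ (k + 1))
      (b := min ((1 / 2) ^ (k + 1) / 64) s.1.2.2) (by positivity) (lt_min (by positivity) s.2.2)
    exact ⟨⟨(F', U', e), hI, he⟩, heb.trans (min_le_left _ _), heb.trans (min_le_right _ _), huc, hR⟩
  choose nxt hn using step
  obtain ⟨e₀, he₀, hb₀, huc₀⟩ := uc_exists (hB _ _ h₀) (d := (1 / 2) ^ 0) (b := (1 / 2) ^ 0 / 64)
    (by positivity) (by positivity)
  let s : ℕ → T := fun k => Nat.rec (motive := fun _ => T) ⟨(F₀, Sq, e₀), h₀, he₀⟩ nxt k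
  have hs : ∀ k, s (k + 1) = nxt k (s k) := fun _ => rfl
  refine ⟨fun k => (s k).1.1, fun k => (s k).1.2.1, fun k => (s k).1.2.2, rfl, rfl,
    fun k => (s k).2.1, fun k => (s k).2.2, ?_, ?_, ?_, ?_⟩
  · intro k
    cases k with
    | zero => exact hb₀
    | succ k => exact (hn k (s k)).1
  · intro k
    exact (hn k (s k)).2.1
  · intro k
    cases k with
    | zero => exact huc₀
    | succ k => exact (hn k (s k)).2.2.1
  · intro k
    exact (hn k (s k)).2.2.2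

theorem gr_cont : Continuous gr := by
  refine continuous_pi fun i => ?_
  fin_cases i
  · exact continuous_fst
  · exact continuous_snd
  · exact continuous_const

theorem dd_cont : Continuous dd := by
  unfold dd
  fun_prop

theorem gr_two (x : ℝ × ℝ) : gr x 2 = 0 := rfl

theorem gr_norm {x : ℝ × ℝ} (hx : x ∈ Sq) : ‖gr x‖ ≤ 1 / 4 := by
  refine (pi_norm_le_iff_of_nonneg (by norm_num)).2 fun i => ?_
  obtain ⟨⟨h1, h2⟩, h3, h4⟩ := hx
  fin_cases i
  · show ‖x.1‖ ≤ 1 / 4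
    rw [Real.norm_eq_abs, abs_le]; constructor <;> linarith
  · show ‖x.2‖ ≤ 1 / 4
    rw [Real.norm_eq_abs, abs_le]; constructor <;> linarith
  · show ‖(0 : ℝ)‖ ≤ 1 / 4
    norm_num

theorem pot_meas {F : V → V} {U : Set (ℝ × ℝ)} (h : Base F U) : Measurable (pot F) := by
  have h1 : Continuous fun x => F (gr x) :=
    continuous_iff_continuousAt.2 fun x =>
      (ll_cont (h.lip (gr x) (le_of_eq (gr_two x).symm))).comp gr_cont.continuousAt
  have h2 : Measurable fun x => dd (F (gr x)) := (dd_cont.comp h1).measurable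
  exact ENNReal.measurable_ofReal.comp (measurable_const.div h2)

theorem vol_Sq : volume Sq = ENNReal.ofReal (1 / 16) := by
  unfold Sq
  rw [Measure.volume_eq_prod, Measure.prod_prod, Real.volume_Ioo,
    ← ENNReal.ofReal_mul (by norm_num)]
  norm_num

theorem vol_ge {U : ℕ → Set (ℝ × ℝ)} {e : ℕ → ℝ} (h0 : U 0 = Sq) (he : ∀ k, e k ≤ (1 / 2) ^ k / 64)
    (h : ∀ k, volume (U k) ≤ volume (U (k + 1)) + ENNReal.ofReal (e k)) (k : ℕ) :
    ENNReal.ofReal (1 / 32 + (1 / 2) ^ k / 32) ≤ volume (U k) := by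
  induction k with
  | zero => rw [h0, vol_Sq]; norm_num
  | succ k ih =>
    have h1 : ENNReal.ofReal (1 / 32 + (1 / 2) ^ k / 32) ≤
        volume (U (k + 1)) + ENNReal.ofReal ((1 / 2) ^ k / 64) :=
      (ih.trans (h k)).trans (add_le_add le_rfl (ENNReal.ofReal_le_ofReal (he k)))
    have h2 : (1 / 32 + (1 / 2) ^ k / 32 : ℝ) =
        (1 / 32 + (1 / 2) ^ (k + 1) / 32) + (1 / 2) ^ k / 64 := by
      rw [pow_succ]; ring
    rw [h2, ENNReal.ofReal_add (by positivity) (by positivity)] at h1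
    exact (ENNReal.add_le_add_iff_right ENNReal.ofReal_ne_top).1 h1

theorem int_le {J : ℕ → ℝ≥0∞} {q : ℝ} (hq : 0 ≤ q) (hq1 : q < 1) (h0 : J 0 ≤ 1)
    (h : ∀ k, J (k + 1) ≤ ENNReal.ofReal q * J k + 4) (k : ℕ) :
    J k ≤ ENNReal.ofReal (1 + 4 / (1 - q)) := by
  have hp : 0 < 1 - q := by linarith
  have h4 : 0 ≤ 4 / (1 - q) := by positivity
  induction k with
  | zero =>
    refine h0.trans ?_
    rw [← ENNReal.ofReal_one]
    exact ENNReal.ofReal_le_ofReal (by linarith)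
  | succ k ih =>
    refine (h k).trans ?_
    have h5 : (4 : ℝ≥0∞) = ENNReal.ofReal 4 := by norm_num
    calc ENNReal.ofReal q * J k + 4 ≤
          ENNReal.ofReal q * ENNReal.ofReal (1 + 4 / (1 - q)) + ENNReal.ofReal 4 := by
          rw [h5]; gcongr
      _ = ENNReal.ofReal (q * (1 + 4 / (1 - q)) + 4) := by
          rw [← ENNReal.ofReal_mul hq, ← ENNReal.ofReal_add (by positivity) (by norm_num)]
      _ ≤ ENNReal.ofReal (1 + 4 / (1 - q)) := by
          refine ENNReal.ofReal_le_ofReal ?_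
          have h6 : 4 / (1 - q) * (1 - q) = 4 := div_mul_cancel₀ _ hp.ne'
          nlinarith

theorem int_zero {F : V → V} (h : ∀ x ∈ Sq, 1 / 2 ≤ dd (F (gr x))) : ∫⁻ x in Sq, pot F x ≤ 1 := by
  have hm : MeasurableSet Sq := measurableSet_Ioo.prod measurableSet_Ioo
  calc ∫⁻ x in Sq, pot F x ≤ ∫⁻ _ in Sq, ENNReal.ofReal 2 := by
        refine setLIntegral_mono' hm fun x hx => ENNReal.ofReal_le_ofReal ?_
        have := h x hx
        rw [div_le_iff₀ (by linarith)]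
        linarith
    _ = ENNReal.ofReal 2 * ENNReal.ofReal (1 / 16) := by
        rw [setLIntegral_const, vol_Sq]
    _ ≤ 1 := by
        rw [← ENNReal.ofReal_mul (by norm_num), ← ENNReal.ofReal_one]
        exact ENNReal.ofReal_le_ofReal (by norm_num)

/-- Chebyshev's inequality in the form used. -/
theorem cheb {f : ℝ × ℝ → ℝ≥0∞} (hf : Measurable f) {U U' : Set (ℝ × ℝ)} (hU : MeasurableSet U)
    (hs : U' ⊆ U) {M : ℝ} (hM : 0 < M) (hi : ∫⁻ x in U, f x ≤ ENNReal.ofReal M)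
    (hv : ENNReal.ofReal (1 / 32) ≤ volume U') :
    ENNReal.ofReal (1 / 64) ≤ volume (U' ∩ {x | f x ≤ ENNReal.ofReal (64 * M)}) := by
  have h1 := mul_meas_ge_le_lintegral (μ := volume.restrict U) hf (ENNReal.ofReal (64 * M))
  rw [Measure.restrict_apply' hU] at h1
  have h2 : volume ({x | ENNReal.ofReal (64 * M) ≤ f x} ∩ U) ≤ ENNReal.ofReal (1 / 64) := by
    have h3 : ENNReal.ofReal M = ENNReal.ofReal (64 * M) * ENNReal.ofReal (1 / 64) := by
      rw [← ENNReal.ofReal_mul (by positivity)]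
      congr 1
      ring
    have h4 := h1.trans hi
    rw [h3] at h4
    exact (ENNReal.mul_le_mul_iff_right (by simpa using hM) ENNReal.ofReal_ne_top).1 h4
  have h5 : U' ⊆ (U' ∩ {x | f x ≤ ENNReal.ofReal (64 * M)}) ∪
      ({x | ENNReal.ofReal (64 * M) ≤ f x} ∩ U) := by
    intro x hx
    rcases le_total (f x) (ENNReal.ofReal (64 * M)) with h | h
    · exact Or.inl ⟨hx, h⟩
    · exact Or.inr ⟨h, hs hx⟩
  have h6 : ENNReal.ofReal (1 / 32) ≤
      volume (U' ∩ {x | f x ≤ ENNReal.ofReal (64 * M)}) + ENNReal.ofReal (1 / 64) :=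
    (hv.trans (measure_mono h5)).trans ((measure_union_le _ _).trans (add_le_add le_rfl h2))
  have h7 : (1 / 32 : ℝ) = 1 / 64 + 1 / 64 := by norm_num
  rw [h7, ENNReal.ofReal_add (by norm_num) (by norm_num)] at h6
  exact (ENNReal.add_le_add_iff_right ENNReal.ofReal_ne_top).1 h6

theorem limsup_ge {A : ℕ → Set (ℝ × ℝ)} (hm : ∀ k, MeasurableSet (A k)) (hs : ∀ k, A k ⊆ Sq)
    {a : ℝ≥0∞} (h : ∀ k, a ≤ volume (A k)) : a ≤ volume (⋂ n, ⋃ k ≥ n, A k) := by
  have hanti : Antitone fun n => ⋃ k ≥ n, A k := by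
    intro n m hnm x hx
    simp only [mem_iUnion] at hx ⊢
    obtain ⟨k, hk, hx⟩ := hx
    exact ⟨k, le_trans hnm hk, hx⟩
  have hfin : volume (⋃ k ≥ 0, A k) ≠ ∞ := by
    refine ne_top_of_le_ne_top (b := volume Sq) (by rw [vol_Sq]; exact ENNReal.ofReal_ne_top) ?_
    exact measure_mono (iUnion₂_subset fun k _ => hs k)
  have ht := tendsto_measure_iInter_atTop (μ := volume) (s := fun n => ⋃ k ≥ n, A k)
    (fun n => (MeasurableSet.biUnion (to_countable _) fun k _ => hm k).nullMeasurableSet) hanti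
    ⟨0, hfin⟩
  refine ge_of_tendsto' ht fun n => (h n).trans (measure_mono ?_)
  intro x hx
  exact mem_iUnion₂.2 ⟨n, le_rfl, hx⟩

theorem stepP (h : StepStmt) : StepStmtP := by
  obtain ⟨I, q, c, hq, hq1, hc, hB, hS, h₀⟩ := h
  refine ⟨I, q, c, hq, hq1, hc, hB, ?_, h₀⟩
  intro F U hI ε hε
  obtain ⟨F', U', h1, h2, h3, h4, h5, h6⟩ := hS F U hI ε hε
  refine ⟨F', U', h1, h2, h3, h4, h5.trans ?_, h6⟩
  rw [lintegral_add_left (pot_meas (hB _ _ hI)), setLIntegral_const, mul_add]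
  refine add_le_add le_rfl ?_
  have h7 : volume U ≤ 1 := by
    refine (measure_mono (hB _ _ hI).sub).trans ?_
    rw [vol_Sq, ← ENNReal.ofReal_one]
    exact ENNReal.ofReal_le_ofReal (by norm_num)
  have h8 : ENNReal.ofReal q ≤ 1 := by
    rw [← ENNReal.ofReal_one]
    exact ENNReal.ofReal_le_ofReal hq1.le
  calc ENNReal.ofReal q * (4 * volume U) ≤ 1 * (4 * 1) := by gcongr
    _ = 4 := by simp

end Iter

open Iter in
theorem rowIterP : Iter.StepStmtP → HalfStmt := by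
  rintro ⟨I, q, c, hq, hq1, hc, hB, hS, F₀, h₀, hd₀⟩
  obtain ⟨F, U, e, hF0, hU0, hI, hpos, hle, hmono, huc, hR⟩ := seq_exists hB hS h₀
  have hanti : Antitone e := antitone_nat_of_succ_le hmono
  have hst : ∀ (k j : ℕ) (p : V), k ≤ j → e k ≤ p 2 → F j p = F k p := by
    intro k j p hkj hp
    induction j, hkj using Nat.le_induction with
    | base => rfl
    | succ j hkj ih => rw [(hR j).2.1 p ((hanti hkj).trans hp), ih]
  let Φ : V → V := fun p => limUnder atTop fun k => F k p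
  have hΦ : ∀ (k : ℕ) (p : V), e k ≤ p 2 → Φ p = F k p := by
    intro k p hp
    refine Tendsto.limUnder_eq ?_
    refine tendsto_const_nhds.congr' ?_
    filter_upwards [eventually_ge_atTop k] with j hj
    exact (hst k j p hj hp).symm
  have hpow : Tendsto (fun k : ℕ => ((1 : ℝ) / 2) ^ k) atTop (𝓝 0) :=
    tendsto_pow_atTop_nhds_zero_of_lt_one (by norm_num) (by norm_num)
  have he0 : Tendsto e atTop (𝓝 0) := by
    refine squeeze_zero (fun k => (hpos k).le) hle ?_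
    simpa using hpow.div_const 64
  have hloc : ∀ p : V, 0 < p 2 → ∃ k, Φ =ᶠ[𝓝 p] F k := by
    intro p hp
    obtain ⟨k, hk⟩ := (he0.eventually (gt_mem_nhds hp)).exists
    refine ⟨k, ?_⟩
    have ho : IsOpen {z : V | e k < z 2} := isOpen_lt continuous_const (continuous_apply 2)
    filter_upwards [ho.mem_nhds hk] with z hz
    exact hΦ k z (le_of_lt hz)
  have hp1 : 0 < 1 - q := by linarith
  obtain ⟨M, hM, hint⟩ : ∃ M : ℝ, 0 < M ∧ ∀ k, ∫⁻ x in U k, pot (F k) x ≤ ENNReal.ofReal M := by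
    refine ⟨1 + 4 / (1 - q), by positivity, ?_⟩
    refine int_le (J := fun k => ∫⁻ x in U k, pot (F k) x) hq hq1 ?_ fun k => (hR k).2.2.2.1
    show ∫⁻ x in U 0, pot (F 0) x ≤ 1
    rw [hU0, hF0]
    exact int_zero hd₀
  have hvol : ∀ k, ENNReal.ofReal (1 / 32) ≤ volume (U k) := fun k =>
    (ENNReal.ofReal_le_ofReal (le_add_of_nonneg_right (by positivity))).trans
      (vol_ge hU0 hle (fun k => (hR k).2.2.1) k)
  let A : ℕ → Set (ℝ × ℝ) := fun k => U (k + 1) ∩ {x | pot (F k) x ≤ ENNReal.ofReal (64 * M)}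
  have hAm : ∀ k, MeasurableSet (A k) := fun k =>
    (hB _ _ (hI (k + 1))).opn.measurableSet.inter
      (measurableSet_le (pot_meas (hB _ _ (hI k))) measurable_const)
  have hAs : ∀ k, A k ⊆ Sq := fun k => inter_subset_left.trans (hB _ _ (hI (k + 1))).sub
  have hAv : ∀ k, ENNReal.ofReal (1 / 64) ≤ volume (A k) := fun k =>
    cheb (pot_meas (hB _ _ (hI k))) (hB _ _ (hI k)).opn.measurableSet (hR k).1 hM (hint k)
      (hvol (k + 1))
  refine ⟨Φ, ?_, ?_, ?_, ⋂ n, ⋃ k ≥ n, A k, ?_, ?_, ?_⟩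
  · intro p hp
    obtain ⟨k, hk⟩ := hloc p hp
    exact ll_congr ((hB _ _ (hI k)).lip p hp.le) hk
  · have := ae_all_iff.2 fun k => (hB _ _ (hI k)).der
    filter_upwards [this] with p hp h
    obtain ⟨k, hk⟩ := hloc p h
    obtain ⟨D, hD, hG⟩ := hp k h
    exact ⟨D, hD.congr_of_eventuallyEq hk, hG⟩
  · intro p h3 hp
    obtain ⟨k, hk⟩ := hloc p hp
    rw [hk.eq_of_nhds]
    exact (hB _ _ (hI k)).bdd p h3 hp.le
  · exact (iInter_subset _ 0).trans (iUnion₂_subset fun k _ => hAs k)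
  · exact lt_of_lt_of_le (by norm_num) (limsup_ge hAm hAs hAv)
  · rintro x hx γ hγ ⟨L, hL⟩
    have hxS : x ∈ Sq := (iInter_subset _ 0).trans (iUnion₂_subset fun k _ => hAs k) hx
    have hgn := gr_norm hxS
    have he64 : ∀ k, e k ≤ 1 / 64 := fun k => by
      have h1 : ((1 : ℝ) / 2) ^ k ≤ 1 := pow_le_one₀ (by norm_num) (by norm_num)
      have := hle k
      linarith
    have hew : Tendsto e atTop (𝓝[>] 0) :=
      tendsto_nhdsWithin_iff.2 ⟨he0, Eventually.of_forall hpos⟩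
    have h1 : Tendsto (fun k => Φ (γ (e k))) atTop (𝓝 L) := hL.comp hew
    have h2 : ∀ k, dist (Φ (γ (e k))) (F k (gr x)) ≤ (1 / 2) ^ k := by
      intro k
      obtain ⟨ha, hb⟩ := hγ (e k) (hpos k) (by linarith [he64 k])
      rw [hΦ k _ ha]
      refine huc k _ _ ?_ ((hpos k).le.trans ha) (by linarith) (le_of_eq (gr_two x).symm) hb
      have h3 := norm_le_norm_add_norm_sub' (γ (e k)) (gr x)
      rw [dist_eq_norm] at hb
      linarith [he64 k]
    have h3 : Tendsto (fun k => F k (gr x)) atTop (𝓝 L) :=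
      h1.congr_dist (squeeze_zero (fun _ => dist_nonneg) h2 hpow)
    have h4 : Tendsto (fun k => ‖F (k + 1) (gr x) - F k (gr x)‖) atTop (𝓝 0) := by
      have := ((tendsto_add_atTop_iff_nat 1).2 h3).sub h3
      simpa using this.norm
    have h5 : 0 < c * (1 / (64 * M)) := by positivity
    obtain ⟨n, hn⟩ := eventually_atTop.1 (h4.eventually (gt_mem_nhds h5))
    obtain ⟨k, hk, hxk⟩ := mem_iUnion₂.1 (mem_iInter.1 hx n)
    have h6 := (hR k).2.2.2.2 x hxk.1
    have h7 : 0 < dd (F k (gr x)) :=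
      (hB _ _ (hI k)).bdd _ (by linarith) (le_of_eq (gr_two x).symm)
    have h8 : 1 / dd (F k (gr x)) ≤ 64 * M :=
      (ENNReal.ofReal_le_ofReal_iff (by positivity)).1 hxk.2
    have h9 : 1 / (64 * M) ≤ dd (F k (gr x)) := by
      rw [div_le_iff₀ h7] at h8
      rw [div_le_iff₀ (by positivity)]
      linarith
    have h10 := hn k hk
    have h11 := mul_le_mul_of_nonneg_left h9 hc.le
    linarith

theorem rowIter : OfIter := fun h => rowIterP (Iter.stepP h)

end Pool.Agent.MP_16e930_an.H27
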