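import Pool.Agent.MP_16e930_an.H27.Spec

/-! The lattice model: transition from an affine map to the tetrahedral Zorich map. -/

set_option autoImplicit false
open MeasureTheory Filter Topology Set

namespace Pool.Agent.MP_16e930_an.H27

abbrev Cl : Type := Bool × Bool × Bool

def flipZ (a b : Bool) (y : Fin 3 → ℤ) : Fin 3 → ℤ :=
  ![if a then -y 0 else y 0, if b then -y 1 else y 1, if a = b then y 2 else -y 2]

def hZ (a b : Bool) : Fin 3 → ℤ := flipZ a b ![-1, -1, -1]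

def tab1 : Bool → Bool → Bool → Fin 3 → ℤ
  | false, false, false => ![-5, -9, -9]
  | false, false, true => ![2, 2, 0]
  | false, true, false => ![-1, -7, -6]
  | false, true, true => ![-4, -9, -13]
  | true, false, false => ![-9, -5, -9]
  | true, true, false => ![2, 2, 0]
  | true, false, true => ![-7, -1, -6]
  | true, true, true => ![-9, -4, -13]

def tab (c : Cl) (a b : Bool) (n : ℕ) : Fin 3 → ℤ :=
  flipZ c.1 c.2.1
    (if n = 0 then ![0, 0, 0] else if n = 1 then tab1 c.2.2 a b else fun i => 5 * 2 ^ n * hZ a b i)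

def Z0 : Bool → Fin 3 → Fin 3 → ℤ
  | false => ![![4, 0, 4], ![0, 4, -4], ![-1, -1, 1]]
  | true => ![![4, 0, -4], ![0, 4, 4], ![-1, -1, 1]]

def Zc (c : Cl) (i : Fin 3) : Fin 3 → ℤ := flipZ c.1 c.2.1 (Z0 c.2.2 i)

def dep (n : ℕ) (o : Fin 6) (s : ℕ) : ℕ := if rk o 2 < s then n - 1 else n

def tv (c : Cl) (a b : Bool) (n : ℕ) (o : Fin 6) (s : ℕ) : Fin 3 → ℤ :=
  tab c (xor a (decide (rk o 0 < s))) (xor b (decide (rk o 1 < s))) (dep n o s)

def td (c : Cl) (a b : Bool) (n : ℕ) (o : Fin 6) (i j : Fin 3) : ℤ :=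
  tv c a b n o (rk o i + 1) j - tv c a b n o (rk o i) j

theorem cert1 : ∀ (c : Cl) (a b : Bool) (o : Fin 6) (n : Fin 8),
    (∀ i j, |Zc c i j + td c a b n o i j| ≤ 14 * 2 ^ (n : ℕ)) ∧
    2 * (2 ^ (n : ℕ)) ^ 3 ≤ det3 (fun j => Zc c 0 j + td c a b n o 0 j)
      (fun j => Zc c 1 j + td c a b n o 1 j) (fun j => Zc c 2 j + td c a b n o 2 j) := by
  decide +kernel

theorem cert2 : ∀ (c : Cl) (a b : Bool) (o : Fin 6),
    (∀ i j, |td c a b 3 o i j| ≤ 80) ∧
    31744 ≤ det3 (td c a b 3 o 0) (td c a b 3 o 1) (td c a b 3 o 2) := by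
  decide +kernel

theorem cert3 : ∀ (c : Cl) (i j : Fin 3), |Zc c i j| ≤ 4 := by decide +kernel

theorem cert4 : ∀ (c : Cl) (a b : Bool) (o : Fin 6), o = 0 ∨ o = 1 →
    ∃ c' : Cl, ∀ i j, td c a b 3 o i j = 20 * Zc c' i j := by decide +kernel

theorem cert5 : ∀ (c : Cl) (a b : Bool) (j : Fin 3),
    |tab c a b 1 j| ≤ 13 ∧ |tab c a b 2 j| = 20 ∧ tab c a b 0 j = 0 := by
  decide +kernel

theorem cert6 : ∀ (c : Cl) (a b a' b' : Bool) (j : Fin 3),
    tab c (xor a a') (xor b b') 2 j = flipZ a' b' (tab c a b 2) j := by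
  decide +kernel

end Pool.Agent.MP_16e930_an.H27
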