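import Pool.Agent.MP_16e930_an.H27.Model

/-! Real-valued facts about the lattice model. -/

set_option autoImplicit false
open MeasureTheory Filter Topology Set

namespace Pool.Agent.MP_16e930_an.H27

lemma prod3 {x y z p q r a e : ℝ} (hx : |x| ≤ a) (hy : |y| ≤ a) (hz : |z| ≤ a)
    (hp : |p| ≤ e) (hq : |q| ≤ e) (hr : |r| ≤ e) :
    |(x + p) * (y + q) * (z + r) - x * y * z| ≤ 3 * e * (a + e) ^ 2 := by
  have ha : 0 ≤ a := (abs_nonneg _).trans hx
  have he : 0 ≤ e := (abs_nonneg _).trans hp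
  have hy' : |y + q| ≤ a + e := (abs_add_le _ _).trans (add_le_add hy hq)
  have hz' : |z + r| ≤ a + e := (abs_add_le _ _).trans (add_le_add hz hr)
  have hx' : |x| ≤ a + e := by linarith
  have hy'' : |y| ≤ a + e := by linarith
  have h : (x + p) * (y + q) * (z + r) - x * y * z =
      p * (y + q) * (z + r) + q * x * (z + r) + r * x * y := by ring
  have k : ∀ u v w : ℝ, |u| ≤ e → |v| ≤ a + e → |w| ≤ a + e → |u * v * w| ≤ e * (a + e) ^ 2 := by
    intro u v w hu hv hw
    rw [abs_mul, abs_mul, pow_two, ← mul_assoc]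
    gcongr
  rw [h]
  have := k _ _ _ hp hy' hz'
  have := k _ _ _ hq hx' hz'
  have := k _ _ _ hr hx' hy''
  have := abs_add_three (p * (y + q) * (z + r)) (q * x * (z + r)) (r * x * y)
  linarith

lemma det3_pert (A B : Fin 3 → V) {a e : ℝ} (hA : ∀ i j, |A i j| ≤ a) (hB : ∀ i j, |B i j| ≤ e) :
    det3 (A 0) (A 1) (A 2) - 18 * e * (a + e) ^ 2 ≤ det3 (A 0 + B 0) (A 1 + B 1) (A 2 + B 2) := by
  have h := fun i j k => abs_le.1 (prod3 (hA 0 i) (hA 1 j) (hA 2 k) (hB 0 i) (hB 1 j) (hB 2 k))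
  have h1 := h 0 1 2
  have h2 := h 0 2 1
  have h3 := h 1 0 2
  have h4 := h 1 2 0
  have h5 := h 2 0 1
  have h6 := h 2 1 0
  simp only [det3, Pi.add_apply]
  linarith [h1.1, h2.2, h3.2, h4.1, h5.1, h6.2]

lemma det3_cast (a b c : Fin 3 → ℤ) :
    det3 (fun j => (a j : ℝ)) (fun j => (b j : ℝ)) (fun j => (c j : ℝ)) = ((det3 a b c : ℤ) : ℝ) := by
  simp [det3]

lemma det3_smul (t : ℝ) (a b c : V) : det3 (t • a) (t • b) (t • c) = t ^ 3 * det3 a b c := by
  simp only [det3, Pi.smul_apply, smul_eq_mul]; ring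

lemma tab_tail (c : Cl) (a b : Bool) (k : ℕ) (j : Fin 3) :
    tab c a b (k + 2) j = 2 ^ k * tab c a b 2 j := by
  have h1 : k + 2 ≠ 0 := by omega
  have h2 : k + 2 ≠ 1 := by omega
  simp only [tab, h1, h2, if_false, flipZ]
  fin_cases j <;> simp <;> split_ifs <;> ring

lemma td_tail (c : Cl) (a b : Bool) (k : ℕ) (o : Fin 6) (i j : Fin 3) :
    td c a b (k + 3) o i j = 2 ^ k * td c a b 3 o i j := by
  have h : ∀ s, tv c a b (k + 3) o s j = 2 ^ k * tv c a b 3 o s j := by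
    intro s
    simp only [tv, dep]
    split_ifs
    · exact tab_tail c _ _ k j
    · refine (tab_tail c _ _ (k + 1) j).trans ?_
      have := tab_tail c (xor a (decide (rk o 0 < s))) (xor b (decide (rk o 1 < s))) 1 j
      rw [show 1 + 2 = 3 from rfl] at this
      rw [this]; ring
  simp only [td, h]; ring

/-- The matrix of the model on a simplex has bounded distortion at the scale `2 ^ n`. -/
lemma good0 (c : Cl) (a b : Bool) (o : Fin 6) (n : ℕ) :
    (∀ i j, |((Zc c i j + td c a b n o i j : ℤ) : ℝ)| ≤ 14 * 2 ^ n) ∧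
    2 * ((2 : ℝ) ^ n) ^ 3 ≤ det3 (fun j => ((Zc c 0 j + td c a b n o 0 j : ℤ) : ℝ))
      (fun j => ((Zc c 1 j + td c a b n o 1 j : ℤ) : ℝ))
      (fun j => ((Zc c 2 j + td c a b n o 2 j : ℤ) : ℝ)) := by
  by_cases hn : n < 8
  · obtain ⟨h1, h2⟩ := cert1 c a b o ⟨n, hn⟩
    refine ⟨fun i j => by exact_mod_cast h1 i j, ?_⟩
    rw [det3_cast]; exact_mod_cast h2
  · obtain ⟨k, rfl⟩ : ∃ k, n = k + 3 := ⟨n - 3, by omega⟩
    obtain ⟨h1, h2⟩ := cert2 c a b o
    have hk : (32 : ℝ) ≤ 2 ^ k := by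
      calc (32 : ℝ) = 2 ^ 5 := by norm_num
        _ ≤ 2 ^ k := pow_le_pow_right₀ (by norm_num) (by omega)
    set X : ℝ := 2 ^ k with hX
    have hp : (2 : ℝ) ^ (k + 3) = 8 * X := by rw [pow_add]; ring
    have hA : ∀ i j, |(X • fun j => (td c a b 3 o i j : ℝ)) j| ≤ 80 * X := by
      intro i j
      have : |(td c a b 3 o i j : ℝ)| ≤ 80 := by exact_mod_cast h1 i j
      simp only [Pi.smul_apply, smul_eq_mul, abs_mul, abs_of_pos (show 0 < X by linarith)]
      nlinarith
    have hB : ∀ i j, |(Zc c i j : ℝ)| ≤ X / 8 := by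
      intro i j
      have : |(Zc c i j : ℝ)| ≤ 4 := by exact_mod_cast cert3 c i j
      linarith
    have he : ∀ i, (fun j => ((Zc c i j + td c a b (k + 3) o i j : ℤ) : ℝ)) =
        (X • fun j => (td c a b 3 o i j : ℝ)) + fun j => (Zc c i j : ℝ) := by
      intro i; ext j
      rw [td_tail]
      simp only [Pi.add_apply, Pi.smul_apply, smul_eq_mul]; push_cast; ring
    constructor
    · intro i j
      have e := congrFun (he i) j
      simp only [Pi.add_apply] at e
      rw [e, hp]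
      have := abs_add_le ((X • fun j => (td c a b 3 o i j : ℝ)) j) (Zc c i j : ℝ)
      linarith [hA i j, hB i j]
    · have := det3_pert (fun i => X • fun j => (td c a b 3 o i j : ℝ))
        (fun i j => (Zc c i j : ℝ)) hA hB
      simp only [det3_smul, det3_cast] at this
      rw [he 0, he 1, he 2, hp]
      have h3 : (31744 : ℝ) ≤ ((det3 (td c a b 3 o 0) (td c a b 3 o 1) (td c a b 3 o 2) : ℤ) : ℝ) := by
        exact_mod_cast h2
      have h4 : 0 < X ^ 3 := by positivity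
      refine le_trans ?_ this
      nlinarith

/-- The size of the drift at depth `n`. -/
def mu (n : ℕ) : ℝ := if n = 0 then 0 else 5 * 2 ^ n

def par (i : ℤ) : Bool := decide (i % 2 = 1)

lemma par_add (i : ℤ) (P : Prop) [Decidable P] :
    par (i + if P then 1 else 0) = xor (par i) (decide P) := by
  by_cases h : P
  · simp only [par, h, if_true, decide_true]
    rcases Int.emod_two_eq_zero_or_one i with h | h
    · have : (i + 1) % 2 = 1 := by omega
      simp [h, this]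
    · have : (i + 1) % 2 = 0 := by omega
      simp [h, this]
  · simp [h]

/-- The lattice values of the model. -/
def om (c : Cl) (β : V) (m : Fin 3 → ℤ) : V :=
  (fun j => (tab c (par (m 0)) (par (m 1)) (-m 2).toNat j : ℝ)) + mu (-m 2).toNat • β

lemma om_vert (c : Cl) (β : V) (m : Fin 3 → ℤ) (o : Fin 6) (s : ℕ) :
    om c β (vert m o s) = (fun j => (tv c (par (m 0)) (par (m 1)) (-m 2).toNat o s j : ℝ)) +
      mu (dep (-m 2).toNat o s) • β := by
  have h : (-(m 2 + if rk o 2 < s then 1 else 0)).toNat = dep (-m 2).toNat o s := by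
    unfold dep; split_ifs <;> omega
  simp only [om, vert, tv, par_add, h]

lemma dep_cases (n : ℕ) (o : Fin 6) (i : Fin 3) :
    (i = 2 ∧ dep n o (rk o i + 1) = n - 1 ∧ dep n o (rk o i) = n) ∨
      (i ≠ 2 ∧ dep n o (rk o i + 1) = dep n o (rk o i)) := by
  fin_cases o <;> fin_cases i <;> simp [dep, rk]

lemma dif_om (c : Cl) (β : V) (m : Fin 3 → ℤ) (o : Fin 6) (i j : Fin 3) :
    dif (om c β) m o i j = (td c (par (m 0)) (par (m 1)) (-m 2).toNat o i j : ℝ) +
      (if i = 2 then mu ((-m 2).toNat - 1) - mu (-m 2).toNat else 0) * β j := by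
  simp only [dif, om_vert, td, Pi.sub_apply, Pi.add_apply, Pi.smul_apply, smul_eq_mul]
  rcases dep_cases (-m 2).toNat o i with ⟨h0, h1, h2⟩ | ⟨h0, h1⟩
  · rw [h1, h2, if_pos h0]; push_cast; ring
  · rw [h1, if_neg h0]; push_cast; ring

lemma mu_diff (n : ℕ) : |mu (n - 1) - mu n| ≤ 5 * 2 ^ n := by
  rcases n with _ | _ | n
  · simp [mu]
  · simp [mu]
  · have h : (0 : ℝ) < 2 ^ (n + 1) := by positivity
    simp only [mu, Nat.add_sub_cancel, Nat.succ_ne_zero, if_false, pow_succ (2 : ℝ) (n + 1)]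
    rw [abs_le]; constructor <;> linarith

/-- The main property of the model. -/
lemma model_good (c : Cl) (β : V) (hβ : ‖β‖ ≤ 1 / 10 ^ 5) (m : Fin 3 → ℤ) (o : Fin 6) :
    ∃ σ : ℝ, 1 ≤ σ ∧ (∀ j, |dif (om c β) m o 2 j| ≤ 20 * σ) ∧
      ∀ B : Fin 3 → V, (∀ i j, |B i j| ≤ σ / 10000) →
        (∀ i j, |(Zc c i j : ℝ) + dif (om c β) m o i j + B i j| ≤ 15 * σ) ∧
        σ ^ 3 ≤ det3 (fun j => (Zc c 0 j : ℝ) + dif (om c β) m o 0 j + B 0 j)
          (fun j => (Zc c 1 j : ℝ) + dif (om c β) m o 1 j + B 1 j)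
          (fun j => (Zc c 2 j : ℝ) + dif (om c β) m o 2 j + B 2 j) := by
  set n := (-m 2).toNat with hn
  obtain ⟨h1, h2⟩ := good0 c (par (m 0)) (par (m 1)) o n
  have hσ : (1 : ℝ) ≤ 2 ^ n := one_le_pow₀ (by norm_num)
  have hm := mu_diff n
  set σ : ℝ := 2 ^ n
  have hb : ∀ i j, |(if i = (2 : Fin 3) then mu (n - 1) - mu n else 0) * β j| ≤ σ / 20000 := by
    intro i j
    have h3 : |β j| ≤ 1 / 10 ^ 5 := (norm_le_pi_norm β j).trans hβ
    have h4 : |if i = (2 : Fin 3) then mu (n - 1) - mu n else 0| ≤ 5 * σ := by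
      split_ifs
      · exact hm
      · simp; linarith
    rw [abs_mul]
    calc _ ≤ 5 * σ * (1 / 10 ^ 5) := by gcongr
      _ = σ / 20000 := by ring
  refine ⟨σ, hσ, fun j => ?_, fun B hB => ?_⟩
  · have h3 : |(Zc c 2 j : ℝ)| ≤ 4 := by exact_mod_cast cert3 c 2 j
    have h4 := h1 2 j
    have h5 := hb 2 j
    rw [dif_om, ← hn]
    push_cast at h4
    rw [if_pos rfl] at h5 ⊢
    rw [abs_le] at h3 h4 h5 ⊢
    constructor <;> linarith [h3.1, h3.2, h4.1, h4.2, h5.1, h5.2]
  · have he : ∀ i, (fun j => (Zc c i j : ℝ) + dif (om c β) m o i j + B i j) =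
        (fun j => ((Zc c i j + td c (par (m 0)) (par (m 1)) n o i j : ℤ) : ℝ)) +
          fun j => (if i = (2 : Fin 3) then mu (n - 1) - mu n else 0) * β j + B i j := by
      intro i; ext j
      simp only [dif_om, ← hn, Pi.add_apply]; push_cast; ring
    have hE : ∀ i j, |(if i = (2 : Fin 3) then mu (n - 1) - mu n else 0) * β j + B i j| ≤
        σ / 5000 := fun i j => (abs_add_le _ _).trans (by linarith [hb i j, hB i j])
    constructor
    · intro i j
      have e := congrFun (he i) j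
      simp only [Pi.add_apply] at e
      rw [e]
      exact (abs_add_le _ _).trans (by linarith [h1 i j, hE i j])
    · have := det3_pert _ _ h1 hE
      rw [he 0, he 1, he 2]
      have h4 : 0 < σ ^ 3 := by positivity
      refine le_trans ?_ this
      nlinarith

lemma om_zero (c : Cl) (β : V) (m : Fin 3 → ℤ) (h : 0 ≤ m 2) : om c β m = 0 := by
  have : (-m 2).toNat = 0 := by omega
  ext j
  simp [om, this, mu, (cert5 c _ _ j).2.2]

lemma om_bound (c : Cl) (β : V) (hβ : ‖β‖ ≤ 1 / 10 ^ 5) (n : ℕ) (hn : 2 ≤ n) (m : Fin 3 → ℤ)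
    (h : -(n : ℤ) ≤ m 2) : ‖om c β m‖ ≤ 10 * 2 ^ n := by
  have hk : (-m 2).toNat ≤ n := by omega
  rw [pi_norm_le_iff_of_nonneg (by positivity)]
  intro j
  simp only [om, Pi.add_apply, Pi.smul_apply, smul_eq_mul, Real.norm_eq_abs]
  generalize (-m 2).toNat = k at hk
  generalize par (m 0) = a
  generalize par (m 1) = b
  have h3 : |β j| ≤ 1 := ((norm_le_pi_norm β j).trans hβ).trans (by norm_num)
  have h4 : (2 : ℝ) ^ k ≤ 2 ^ n := pow_le_pow_right₀ (by norm_num) hk
  have h5 : (2 : ℝ) ^ 2 ≤ 2 ^ n := pow_le_pow_right₀ (by norm_num) hn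
  have h6 : |mu k * β j| ≤ 5 * 2 ^ n := by
    have : |mu k| ≤ 5 * 2 ^ n := by
      unfold mu; split_ifs
      · simp
      · rw [abs_of_pos (by positivity)]; linarith
    rw [abs_mul]
    calc |mu k| * |β j| ≤ 5 * 2 ^ n * 1 := by gcongr
      _ = _ := mul_one _
  have h7 : |(tab c a b k j : ℝ)| ≤ 5 * 2 ^ n := by
    obtain ⟨c1, c2, c0⟩ := cert5 c a b j
    rcases k with _ | _ | k
    · simp [c0]
    · have : |(tab c a b 1 j : ℝ)| ≤ 13 := by exact_mod_cast c1
      simp only [zero_add]; linarith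
    · have : |(tab c a b 2 j : ℝ)| = 20 := by exact_mod_cast c2
      rw [show k + 1 + 1 = k + 2 from rfl] at h4 ⊢
      rw [tab_tail]
      push_cast
      rw [abs_mul, this, abs_of_pos (by positivity)]
      rw [pow_add] at h4; linarith
  exact (abs_add_le _ _).trans (by linarith)

lemma dif_ground (c : Cl) (β : V) (k : ℕ) (m : Fin 3 → ℤ) (hm : m 2 = -((k + 3 : ℕ) : ℤ))
    (o : Fin 6) (ho : o = 0 ∨ o = 1) :
    ∃ c' : Cl, ∀ i j, dif (om c β) m o i j =
      20 * 2 ^ k * ((Zc c' i j : ℝ) - if i = 2 then β j else 0) := by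
  have hn : (-m 2).toNat = k + 3 := by omega
  obtain ⟨c', h⟩ := cert4 c (par (m 0)) (par (m 1)) o ho
  refine ⟨c', fun i j => ?_⟩
  rw [dif_om, hn, td_tail, h]
  push_cast
  split_ifs
  · simp only [mu, show k + 3 - 1 = k + 2 from rfl, Nat.succ_ne_zero, if_false, pow_add]; ring
  · ring

end Pool.Agent.MP_16e930_an.H27
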