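import Pool.Agent.MP_16e930_an.H27.Spec

/-! The facts about the piecewise linear interpolant. -/

set_option autoImplicit false
open MeasureTheory Filter Topology Set

namespace Pool.Agent.MP_16e930_an.H27

namespace PLx

def H (x y w : ℝ) : ℝ := max 0 (1 + min (min 0 x) (min y w) - max (max 0 x) (max y w))

theorem hat_eq (u : V) : hat u = H (u 0) (u 1) (u 2) := rfl

theorem hat_nonneg (u : V) : 0 ≤ hat u := le_max_left _ _

theorem hat_zero (u : V) (i : Fin 3) (h : 1 ≤ |u i|) : hat u = 0 := by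
  have h1 : min (min 0 (u 0)) (min (u 1) (u 2)) ≤ 0 := (min_le_left _ _).trans (min_le_left _ _)
  have h2 : 0 ≤ max (max 0 (u 0)) (max (u 1) (u 2)) := (le_max_left _ _).trans (le_max_left _ _)
  have h3 : min (min 0 (u 0)) (min (u 1) (u 2)) ≤ u i := by
    fin_cases i
    · exact (min_le_left _ _).trans (min_le_right _ _)
    · exact (min_le_right _ _).trans (min_le_left _ _)
    · exact (min_le_right _ _).trans (min_le_right _ _)
  have h4 : u i ≤ max (max 0 (u 0)) (max (u 1) (u 2)) := by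
    fin_cases i
    · exact (le_max_right _ _).trans (le_max_left _ _)
    · exact (le_max_left _ _).trans (le_max_right _ _)
    · exact (le_max_right _ _).trans (le_max_right _ _)
  unfold hat
  apply max_eq_left
  rcases le_abs.1 h with h | h <;> linarith

theorem hat_lip : ∃ K, LipschitzWith K hat := by
  have e : ∀ i : Fin 3, LipschitzWith 1 fun u : V => u i := fun i => LipschitzWith.eval i
  have c : ∀ a : ℝ, LipschitzWith 0 fun _ : V => a := fun a => LipschitzWith.const a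
  exact ⟨_, (c 0).max (((c 1).add (((c 0).min (e 0)).min ((e 1).min (e 2)))).sub
    (((c 0).max (e 0)).max ((e 1).max (e 2))))⟩

theorem sum_lip (ω : (Fin 3 → ℤ) → V) (s : Finset (Fin 3 → ℤ)) :
    ∃ K, LipschitzWith K fun z : V => ∑ m ∈ s, hat (z - fun i => (m i : ℝ)) • ω m := by
  classical
  obtain ⟨K, hK⟩ := hat_lip
  induction s using Finset.induction_on with
  | empty => exact ⟨0, by simp⟩
  | insert m s hm ih =>
    obtain ⟨K', hK'⟩ := ih
    have h1 : LipschitzWith 1 fun z : V => z - fun i => (m i : ℝ) :=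
      (IsometryEquiv.subRight (fun i => (m i : ℝ) : V)).isometry.lipschitz
    have h2 := (ContinuousLinearMap.toSpanSingleton ℝ (ω m)).lipschitz.comp (hK.comp h1)
    simp only [Finset.sum_insert hm]
    exact ⟨_, LipschitzWith.add h2 hK'⟩

theorem near {z : V} {m : Fin 3 → ℤ} {v : V} (h : hat (z - fun i => (m i : ℝ)) • v ≠ 0)
    (i : Fin 3) : |z i - m i| < 1 := by
  by_contra hc
  exact h (by rw [hat_zero _ i (not_lt.1 hc), zero_smul])

theorem lip (ω : (Fin 3 → ℤ) → V) (z : V) : LL (interp ω) z := by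
  classical
  obtain ⟨K, hK⟩ := sum_lip ω (Fintype.piFinset fun i => Finset.Icc (⌊z i⌋ - 2) (⌊z i⌋ + 3))
  refine ⟨K, Metric.ball z 1, Metric.ball_mem_nhds z one_pos, ?_⟩
  suffices h : ∀ w ∈ Metric.ball z 1, interp ω w = _ by
    intro x hx y hy
    rw [h x hx, h y hy]
    exact hK x y
  intro w hw
  apply finsum_eq_sum_of_support_subset
  intro m hm
  simp only [Finset.mem_coe, Fintype.mem_piFinset, Finset.mem_Icc]
  intro i
  have h1 := abs_lt.1 (near hm i)
  have h2 : |w i - z i| < 1 := by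
    have := (dist_le_pi_dist w z i).trans_lt (Metric.mem_ball.1 hw)
    rwa [Real.dist_eq] at this
  have h3 := abs_lt.1 h2
  have h4 := Int.floor_le (z i)
  have h5 := Int.lt_floor_add_one (z i)
  constructor
  · have : ((⌊z i⌋ - 2 : ℤ) : ℝ) ≤ m i := by push_cast; linarith
    exact_mod_cast this
  · have : (m i : ℝ) ≤ ((⌊z i⌋ + 3 : ℤ) : ℝ) := by push_cast; linarith
    exact_mod_cast this

/-- The corners of the cube. -/
def cn (m : Fin 3 → ℤ) (a b d : ℤ) : Fin 3 → ℤ := ![m 0 + a, m 1 + b, m 2 + d]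

def bz (b : Bool) : ℤ := if b then 1 else 0

theorem corners (ω : (Fin 3 → ℤ) → V) (m : Fin 3 → ℤ) (z : V)
    (h : ∀ i, (m i : ℝ) ≤ z i ∧ z i ≤ m i + 1) :
    interp ω z = ∑ e : Bool × Bool × Bool,
      hat (z - fun i => (cn m (bz e.1) (bz e.2.1) (bz e.2.2) i : ℝ)) •
        ω (cn m (bz e.1) (bz e.2.1) (bz e.2.2)) := by
  classical
  have hb : Function.Injective bz := by decide
  have hi : Function.Injective fun e : Bool × Bool × Bool =>
      cn m (bz e.1) (bz e.2.1) (bz e.2.2) := by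
    intro e e' he
    have h0 := congrFun he 0
    have h1 := congrFun he 1
    have h2 := congrFun he 2
    simp [cn] at h0 h1 h2
    exact Prod.ext (hb h0) (Prod.ext (hb h1) (hb h2))
  rw [← Finset.sum_image (f := fun m' : Fin 3 → ℤ => hat (z - fun i => (m' i : ℝ)) • ω m')
    (fun a _ b _ hab => hi hab)]
  apply finsum_eq_sum_of_support_subset
  intro m' hm
  have k : ∀ i, ∃ b, m' i = m i + bz b := by
    intro i
    have h1 := abs_lt.1 (near hm i)
    have h2 := h i
    have h3 : ((m i - 1 : ℤ) : ℝ) < m' i := by push_cast; linarith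
    have h4 : (m' i : ℝ) < ((m i + 2 : ℤ) : ℝ) := by push_cast; linarith
    have h5 : m i - 1 < m' i := by exact_mod_cast h3
    have h6 : m' i < m i + 2 := by exact_mod_cast h4
    by_cases h7 : m' i = m i
    · exact ⟨false, by simp [bz, h7]⟩
    · exact ⟨true, by simp only [bz, if_true]; omega⟩
  choose b hb' using k
  simp only [Finset.coe_image, Finset.coe_univ, image_univ, mem_range]
  refine ⟨(b 0, b 1, b 2), funext fun i => ?_⟩
  fin_cases i <;> simp [cn, hb']

theorem s1 (x y w : ℝ) : H x y w = H y x w := by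
  unfold H
  rw [min_assoc, min_assoc, max_assoc, max_assoc, min_left_comm x, max_left_comm x]

theorem s2 (x y w : ℝ) : H x y w = H x w y := by
  unfold H
  rw [min_comm y, max_comm y]

theorem key {p q r : ℝ} (h1 : p ≤ 1) (h2 : q ≤ p) (h3 : r ≤ q) (h4 : 0 ≤ r) :
    H p q r = 1 - p ∧ H (p - 1) q r = p - q ∧ H (p - 1) (q - 1) r = q - r ∧
      H (p - 1) (q - 1) (r - 1) = r ∧ H p (q - 1) r = 0 ∧ H p q (r - 1) = 0 ∧
      H p (q - 1) (r - 1) = 0 ∧ H (p - 1) q (r - 1) = 0 := by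
  unfold H
  refine ⟨?_, ?_, ?_, ?_, ?_, ?_, ?_, ?_⟩ <;> simp only [max_def, min_def] <;> split_ifs <;>
    linarith

theorem vert_eq (m : Fin 3 → ℤ) (o : Fin 6) (s : ℕ) :
    vert m o s = cn m (if rk o 0 < s then 1 else 0) (if rk o 1 < s then 1 else 0)
      (if rk o 2 < s then 1 else 0) := by
  funext i
  fin_cases i <;> rfl

theorem hat_cn (m : Fin 3 → ℤ) (z : V) (a b d : ℤ) :
    hat (z - fun i => (cn m a b d i : ℝ)) =
      H (z 0 - m 0 - a) (z 1 - m 1 - b) (z 2 - m 2 - d) := by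
  rw [hat_eq]
  simp [cn, sub_sub]

theorem formula (ω : (Fin 3 → ℤ) → V) (m : Fin 3 → ℤ) (o : Fin 6) (z : V) (h : InS m o z) :
    interp ω z = ω m + ∑ i, (z i - m i) • dif ω m o i := by
  have hm : ω m = ω (cn m 0 0 0) := by
    congr 1
    funext i
    fin_cases i <;> simp [cn]
  rw [corners ω m z h.1, hm]
  simp only [Fintype.sum_prod_type, Fintype.sum_bool, hat_cn, bz, Fin.sum_univ_three, dif, vert_eq,
    if_true, Bool.false_eq_true, if_false, Int.cast_one, Int.cast_zero, sub_zero]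
  have lo : ∀ i, 0 ≤ z i - m i := fun i => by linarith [(h.1 i).1]
  have hi : ∀ i, z i - m i ≤ 1 := fun i => by linarith [(h.1 i).2]
  have h2 := h.2
  have l0 := lo 0
  have l1 := lo 1
  have l2 := lo 2
  have u0 := hi 0
  have u1 := hi 1
  have u2 := hi 2
  have c01 := h2 0 1
  have c02 := h2 0 2
  have c10 := h2 1 0
  have c12 := h2 1 2
  have c20 := h2 2 0
  have c21 := h2 2 1
  generalize z 0 - (m 0 : ℝ) = x at *
  generalize z 1 - (m 1 : ℝ) = y at *
  generalize z 2 - (m 2 : ℝ) = w at *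
  fin_cases o
  · obtain ⟨k1, k2, k3, k4, k5, k6, k7, k8⟩ := key u0 (c01 (by decide)) (c12 (by decide)) l2
    rw [k1, k2, k3, k4, k5, k6, k7, k8]
    simp [rk]
    module
  · obtain ⟨k1, k2, k3, k4, k5, k6, k7, k8⟩ := key u1 (c10 (by decide)) (c02 (by decide)) l2
    rw [s1] at k1 k2 k3 k4 k5 k6 k7 k8
    rw [k1, k2, k3, k4, k5, k6, k7, k8]
    simp [rk]
    module
  · obtain ⟨k1, k2, k3, k4, k5, k6, k7, k8⟩ := key u0 (c02 (by decide)) (c21 (by decide)) l1
    rw [s2] at k1 k2 k3 k4 k5 k6 k7 k8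
    rw [k1, k2, k3, k4, k5, k6, k7, k8]
    simp [rk]
    module
  · obtain ⟨k1, k2, k3, k4, k5, k6, k7, k8⟩ := key u1 (c12 (by decide)) (c20 (by decide)) l0
    rw [s2, s1] at k1 k2 k3 k4 k5 k6 k7 k8
    rw [k1, k2, k3, k4, k5, k6, k7, k8]
    simp [rk]
    module
  · obtain ⟨k1, k2, k3, k4, k5, k6, k7, k8⟩ := key u2 (c20 (by decide)) (c01 (by decide)) l1
    rw [s1, s2] at k1 k2 k3 k4 k5 k6 k7 k8
    rw [k1, k2, k3, k4, k5, k6, k7, k8]
    simp [rk]
    module
  · obtain ⟨k1, k2, k3, k4, k5, k6, k7, k8⟩ := key u2 (c21 (by decide)) (c10 (by decide)) l0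
    rw [s1, s2, s1] at k1 k2 k3 k4 k5 k6 k7 k8
    rw [k1, k2, k3, k4, k5, k6, k7, k8]
    simp [rk]
    module

theorem cover (z : V) : ∃ o, InS (fun i => ⌊z i⌋) o z := by
  have h : ∀ i, ((⌊z i⌋ : ℤ) : ℝ) ≤ z i ∧ z i ≤ (⌊z i⌋ : ℤ) + 1 :=
    fun i => ⟨Int.floor_le _, (Int.lt_floor_add_one _).le⟩
  suffices ∀ u : V, ∃ o : Fin 6, ∀ i j, rk o i < rk o j → u j ≤ u i by
    obtain ⟨o, ho⟩ := this fun i => z i - (⌊z i⌋ : ℤ)
    exact ⟨o, h, ho⟩
  intro u
  have t : ∀ o : Fin 6, (rk o 0 < rk o 1 → u 1 ≤ u 0) → (rk o 0 < rk o 2 → u 2 ≤ u 0) →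
      (rk o 1 < rk o 0 → u 0 ≤ u 1) → (rk o 1 < rk o 2 → u 2 ≤ u 1) →
      (rk o 2 < rk o 0 → u 0 ≤ u 2) → (rk o 2 < rk o 1 → u 1 ≤ u 2) →
      ∃ o : Fin 6, ∀ i j, rk o i < rk o j → u j ≤ u i := by
    intro o a b c d e f
    refine ⟨o, fun i j => ?_⟩
    fin_cases i <;> fin_cases j <;> first | assumption | exact fun _ => le_rfl
  rcases le_total (u 0) (u 1) with a | a <;> rcases le_total (u 0) (u 2) with b | b <;>
    rcases le_total (u 1) (u 2) with c | c
  · apply t 5 <;> simp [rk, *]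
  · apply t 3 <;> simp [rk, *]
  · apply t 1 <;> simp [rk, *]
    linarith
  · apply t 1 <;> simp [rk, *]
  · apply t 4 <;> simp [rk, *]
  · apply t 0 <;> simp [rk, *]
    linarith
  · apply t 2 <;> simp [rk, *]
  · apply t 0 <;> simp [rk, *]

theorem bound (ω : (Fin 3 → ℤ) → V) (z : V) (k : ℤ) (B : ℝ) (hk : (k : ℝ) ≤ z 2)
    (hB : ∀ m : Fin 3 → ℤ, k ≤ m 2 → ‖ω m‖ ≤ B) : ‖interp ω z‖ ≤ B := by
  obtain ⟨o, ho⟩ := cover z
  have h1 := corners (fun _ => 1) _ z ho.1
  rw [formula _ _ o z ho] at h1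
  have h2 := congrFun h1 0
  simp only [dif, sub_self, smul_zero, Finset.sum_const_zero, add_zero, Pi.one_apply,
    Finset.sum_apply, Pi.smul_apply, smul_eq_mul, mul_one] at h2
  rw [corners ω _ z ho.1, ← one_mul B, h2, Finset.sum_mul]
  refine norm_sum_le_of_le _ fun e _ => ?_
  rw [norm_smul, Real.norm_of_nonneg (hat_nonneg _)]
  refine mul_le_mul_of_nonneg_left (hB _ ?_) (hat_nonneg _)
  have h3 : k ≤ ⌊z 2⌋ := Int.le_floor.2 hk
  have h4 : 0 ≤ bz e.2.2 := by unfold bz; split_ifs <;> simp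
  simp only [cn, Matrix.cons_val]
  omega

theorem plane (L : V →ₗ[ℝ] ℝ) (v : V) (hv : L v = 1) (c : ℝ) : ∀ᵐ z : V, L z ≠ c := by
  have h1 : LinearMap.ker L ≠ ⊤ := by
    intro h
    have : v ∈ LinearMap.ker L := h ▸ Submodule.mem_top
    rw [LinearMap.mem_ker, hv] at this
    exact one_ne_zero this
  have h2 := Measure.addHaar_submodule (volume : Measure V) _ h1
  rw [← measure_preimage_add_right volume (-(c • v))] at h2
  rw [ae_iff]
  convert h2 using 2
  ext z
  simp [hv, ← sub_eq_add_neg, sub_eq_zero]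

theorem generic : ∀ᵐ z : V, ∃ m o, ∀ᶠ w in 𝓝 z, InS m o w := by
  have h1 : ∀ᵐ z : V, ∀ (i : Fin 3) (k : ℤ), z i ≠ k :=
    ae_all_iff.2 fun i => ae_all_iff.2 fun k =>
      plane (LinearMap.proj i) (Pi.single i 1) (by simp) k
  have h2 : ∀ᵐ z : V, ∀ (i j : Fin 3) (k : ℤ), i ≠ j → z i - z j ≠ k := by
    refine ae_all_iff.2 fun i => ae_all_iff.2 fun j => ae_all_iff.2 fun k => ?_
    by_cases hij : i = j
    · exact Eventually.of_forall fun z h => absurd hij h
    · filter_upwards [plane ((LinearMap.proj i : V →ₗ[ℝ] ℝ) - (LinearMap.proj j : V →ₗ[ℝ] ℝ))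
        (Pi.single i 1) (by
          rw [LinearMap.sub_apply, LinearMap.proj_apply, LinearMap.proj_apply]
          simp [Ne.symm hij]) k] with z hz _
      exact hz
  filter_upwards [h1, h2] with z a b
  obtain ⟨o, ho⟩ := cover z
  refine ⟨fun i => ⌊z i⌋, o, Eventually.and (eventually_all.2 fun i => Eventually.and ?_ ?_)
    (eventually_all.2 fun i => eventually_all.2 fun j => ?_)⟩
  · have : ((⌊z i⌋ : ℤ) : ℝ) < z i := lt_of_le_of_ne (Int.floor_le _) (a i _).symm
    exact ((continuous_apply i).continuousAt.eventually (lt_mem_nhds this)).mono fun _ h => h.le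
  · exact ((continuous_apply i).continuousAt.eventually
      (gt_mem_nhds (Int.lt_floor_add_one (z i)))).mono fun _ h => h.le
  · by_cases hr : rk o i < rk o j
    · have hij : i ≠ j := fun h => by simp [h] at hr
      have h3 := ho.2 i j hr
      have h4 := b i j (⌊z i⌋ - ⌊z j⌋) hij
      have h5 : ((⌊z i⌋ : ℤ) : ℝ) - (⌊z j⌋ : ℤ) < z i - z j := by
        refine lt_of_le_of_ne (by linarith) fun h => h4 ?_
        push_cast
        exact h.symm
      have h6 : Continuous fun w : V => w i - w j := by fun_prop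
      exact (h6.continuousAt.eventually (lt_mem_nhds h5)).mono fun w h _ => by
        simp only at h ⊢
        linarith
    · exact Eventually.of_forall fun _ h => absurd h hr

end PLx

theorem rowPL : PL := ⟨PLx.lip, PLx.formula, PLx.cover, PLx.bound, PLx.generic⟩

end Pool.Agent.MP_16e930_an.H27
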