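import Pool.Agent.MP_16e930_an.H27.Spec

/-! The drift inequality for the potential. -/

set_option autoImplicit false

namespace Pool.Agent.MP_16e930_an.H27

namespace Pot

theorem inv_le (D A : ℝ) (hD : 0 < D) (hA : |A| ≤ 19 / 10 ^ 10 * D) :
    1 / (D - A) ≤ 1 / D + A / D ^ 2 + 722 / 10 ^ 20 * (1 / D) := by
  obtain ⟨a, rfl⟩ : ∃ a, A = a * D := ⟨A / D, by field_simp⟩
  have ha : |a| ≤ 19 / 10 ^ 10 := by
    rw [abs_mul, abs_of_pos hD] at hA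
    exact le_of_mul_le_mul_right hA hD
  obtain ⟨h1, h2⟩ := abs_le.1 ha
  have h3 : 0 < 1 - a := by linarith
  have h4 : 1 / (1 - a) ≤ 1 + a + 722 / 10 ^ 20 := by
    rw [div_le_iff₀ h3]
    nlinarith [mul_nonneg (by linarith : (0 : ℝ) ≤ 19 / 10 ^ 10 - a)
      (by linarith : (0 : ℝ) ≤ 19 / 10 ^ 10 + a)]
  have e1 : 1 / (D - a * D) = 1 / D * (1 / (1 - a)) := by
    have : D - a * D = D * (1 - a) := by ring
    rw [this, one_div_mul_one_div]
  have e2 : 1 / D + a * D / D ^ 2 + 722 / 10 ^ 20 * (1 / D) =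
      1 / D * (1 + a + 722 / 10 ^ 20) := by
    field_simp
  rw [e1, e2]
  exact mul_le_mul_of_nonneg_left h4 (by positivity)

theorem mul_abs (y e B : ℝ) (hy : |y| ≤ 1) (he : |e| ≤ B) : |y * e| ≤ B := by
  rw [abs_mul]
  calc |y| * |e| ≤ 1 * B := mul_le_mul hy he (abs_nonneg _) zero_le_one
    _ = B := one_mul B

theorem coord (y e h r D : ℝ) (hD : 0 < D) (hD1 : D ≤ 1) (hy : |y| ≤ 1) (hh : |h| ≤ 1)
    (he : |e| ≤ 1 / 10 ^ 20 * D) (hr0 : 0 ≤ r) (hr : r ≤ 2 / 10 ^ 10 * D) :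
    |y * (e + r * (h - 1 / 10 ^ 5 * y))| ≤ 3 / 10 ^ 10 * D ∧
      (e + r * (h - 1 / 10 ^ 5 * y)) ^ 2 ≤ 9 / 10 ^ 20 * D ∧ y * e ≤ 1 / 10 ^ 20 * D := by
  have h1 : |h - 1 / 10 ^ 5 * y| ≤ 1 + 1 / 10 ^ 5 := by
    obtain ⟨a1, a2⟩ := abs_le.1 hy
    obtain ⟨b1, b2⟩ := abs_le.1 hh
    exact abs_le.2 ⟨by linarith, by linarith⟩
  have h2 : |r * (h - 1 / 10 ^ 5 * y)| ≤ 2 / 10 ^ 10 * D * (1 + 1 / 10 ^ 5) := by
    rw [abs_mul, abs_of_nonneg hr0]
    exact mul_le_mul hr h1 (abs_nonneg _) (by positivity)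
  have h3 : |e + r * (h - 1 / 10 ^ 5 * y)| ≤ 3 / 10 ^ 10 * D := by
    refine (abs_add_le _ _).trans ?_
    linarith
  refine ⟨mul_abs _ _ _ hy h3, ?_, (le_abs_self _).trans (mul_abs _ _ _ hy he)⟩
  have h4 := sq_le_sq' (abs_le.1 h3).1 (abs_le.1 h3).2
  nlinarith [mul_nonneg hD.le (sub_nonneg.2 hD1)]

theorem abs_le_one (y : V) (hy : 0 < dd y) (i : Fin 3) : |y i| ≤ 1 := by
  have h : y i ^ 2 ≤ 1 := by
    unfold dd at hy
    have h0 := sq_nonneg (y 0)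
    have h1 := sq_nonneg (y 1)
    have h2 := sq_nonneg (y 2)
    fin_cases i
    · show y 0 ^ 2 ≤ 1
      linarith
    · show y 1 ^ 2 ≤ 1
      linarith
    · show y 2 ^ 2 ≤ 1
      linarith
  exact (sq_le_one_iff_abs_le_one _).1 h

theorem dd_le_one (y : V) : dd y ≤ 1 := by
  unfold dd
  nlinarith [sq_nonneg (y 0), sq_nonneg (y 1), sq_nonneg (y 2)]

theorem coord_le (w y : V) (B : ℝ) (h : ‖w - y‖ ≤ B) (i : Fin 3) : |w i - y i| ≤ B :=
  (norm_le_pi_norm (w - y) i).trans h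

theorem term (y h w : V) (r : ℝ) (hy : 0 < dd y) (hh : ∀ i, |h i| ≤ 1)
    (hw : ‖w - y‖ ≤ 1 / 10 ^ 20 * dd y) (hr0 : 0 ≤ r) (hr : r ≤ 2 / 10 ^ 10 * dd y) :
    1 / dd (w + r • (h - (1 / 10 ^ 5 : ℝ) • y)) ≤ (1 + 8 / 10 ^ 18) * (1 / dd y) +
      2 * r / dd y ^ 2 * (y 0 * h 0 + y 1 * h 1 + y 2 * h 2 - 1 / 10 ^ 5 * (1 - dd y)) := by
  have c := fun i => coord (y i) (w i - y i) (h i) r (dd y) hy (dd_le_one y) (abs_le_one y hy i)
    (hh i) (coord_le w y _ hw i) hr0 hr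
  obtain ⟨a0, b0, c0⟩ := c 0
  obtain ⟨a1, b1, c1⟩ := c 1
  obtain ⟨a2, b2, c2⟩ := c 2
  set s0 := w 0 - y 0 + r * (h 0 - 1 / 10 ^ 5 * y 0) with hs0
  set s1 := w 1 - y 1 + r * (h 1 - 1 / 10 ^ 5 * y 1) with hs1
  set s2 := w 2 - y 2 + r * (h 2 - 1 / 10 ^ 5 * y 2) with hs2
  have e : dd (w + r • (h - (1 / 10 ^ 5 : ℝ) • y)) =
      dd y - (2 * (y 0 * s0 + y 1 * s1 + y 2 * s2) + (s0 ^ 2 + s1 ^ 2 + s2 ^ 2)) := by
    simp only [dd, Pi.add_apply, Pi.smul_apply, Pi.sub_apply, smul_eq_mul, hs0, hs1, hs2]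
    ring
  have hA : |2 * (y 0 * s0 + y 1 * s1 + y 2 * s2) + (s0 ^ 2 + s1 ^ 2 + s2 ^ 2)| ≤
      19 / 10 ^ 10 * dd y := by
    obtain ⟨p0, q0⟩ := abs_le.1 a0
    obtain ⟨p1, q1⟩ := abs_le.1 a1
    obtain ⟨p2, q2⟩ := abs_le.1 a2
    have := sq_nonneg s0
    have := sq_nonneg s1
    have := sq_nonneg s2
    exact abs_le.2 ⟨by linarith, by linarith⟩
  rw [e]
  refine (inv_le _ _ hy hA).trans ?_
  have e2 : y 0 * s0 + y 1 * s1 + y 2 * s2 =
      y 0 * (w 0 - y 0) + y 1 * (w 1 - y 1) + y 2 * (w 2 - y 2) +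
        r * (y 0 * h 0 + y 1 * h 1 + y 2 * h 2 - 1 / 10 ^ 5 * (1 - dd y)) := by
    simp only [dd, hs0, hs1, hs2]
    ring
  set T := y 0 * h 0 + y 1 * h 1 + y 2 * h 2 - 1 / 10 ^ 5 * (1 - dd y) with hT
  have h5 : 2 * (y 0 * s0 + y 1 * s1 + y 2 * s2) + (s0 ^ 2 + s1 ^ 2 + s2 ^ 2) ≤
      33 / 10 ^ 20 * dd y + 2 * r * T := by
    rw [e2]
    linarith
  have h6 := div_le_div_of_nonneg_right h5 (sq_nonneg (dd y))
  have e3 : (33 / 10 ^ 20 * dd y + 2 * r * T) / dd y ^ 2 =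
      33 / 10 ^ 20 * (1 / dd y) + 2 * r / dd y ^ 2 * T := by
    field_simp
  have h7 : 0 < 1 / dd y := by positivity
  rw [e3] at h6
  linarith

theorem base (y w : V) (hy : 0 < dd y) (hw : ‖w - y‖ ≤ 1 / 10 ^ 20 * dd y) :
    (1 - 6 / 10 ^ 20) * (1 / dd y) ≤ 1 / dd w := by
  have c := fun i => coord (y i) (w i - y i) 0 0 (dd y) hy (dd_le_one y) (abs_le_one y hy i)
    (by simp) (coord_le w y _ hw i) le_rfl (by positivity)
  have d := fun i => abs_le.1 (mul_abs (y i) (w i - y i) _ (abs_le_one y hy i) (coord_le w y _ hw i))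
  simp only [zero_mul, add_zero] at c
  have e : dd w = dd y - (2 * (y 0 * (w 0 - y 0) + y 1 * (w 1 - y 1) + y 2 * (w 2 - y 2)) +
      ((w 0 - y 0) ^ 2 + (w 1 - y 1) ^ 2 + (w 2 - y 2) ^ 2)) := by
    simp only [dd]
    ring
  have h0 : 0 < dd w := by
    rw [e]
    linarith [(c 0).2.1, (c 1).2.1, (c 2).2.1, (d 0).2, (d 1).2, (d 2).2]
  have h1 : dd w ≤ (1 + 6 / 10 ^ 20) * dd y := by
    rw [e]
    linarith [sq_nonneg (w 0 - y 0), sq_nonneg (w 1 - y 1), sq_nonneg (w 2 - y 2), (d 0).1,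
      (d 1).1, (d 2).1]
  rw [mul_one_div, div_le_div_iff₀ hy h0]
  nlinarith

end Pot

theorem rowPot : PotStmt := by
  intro y η w r hy hη hw hr1 hr2
  have hr0 : 0 ≤ r := le_trans (by positivity) hr1
  have hη' : ∀ i, |η i| ≤ 1 := fun i => (norm_le_pi_norm η i).trans hη
  have hf : ∀ a b i, |flip a b η i| ≤ 1 := by
    intro a b i
    fin_cases i <;> cases a <;> cases b <;> simp [flip, hη']
  have t := fun a b => Pot.term y (flip a b η) (w a b) r hy (hf a b) (hw a b) hr0 hr2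
  have hb := Pot.base y (w false false) hy (hw false false)
  have t1 := t true true
  have t2 := t true false
  have t3 := t false true
  have t4 := t false false
  have hs : y 0 * flip true true η 0 + y 1 * flip true true η 1 + y 2 * flip true true η 2 +
      (y 0 * flip true false η 0 + y 1 * flip true false η 1 + y 2 * flip true false η 2) +
      (y 0 * flip false true η 0 + y 1 * flip false true η 1 + y 2 * flip false true η 2) +
      (y 0 * flip false false η 0 + y 1 * flip false false η 1 + y 2 * flip false false η 2) =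
      0 := by
    simp [flip]
    ring
  have h1 : 2 / 10 ^ 10 * (1 / dd y) ≤ 2 * r / dd y ^ 2 := by
    rw [mul_one_div, div_le_div_iff₀ hy (by positivity)]
    nlinarith
  have h2 : 2 / 10 ^ 10 * (1 / dd y) * (1 - dd y) ≤ 2 * r / dd y ^ 2 * (1 - dd y) :=
    mul_le_mul_of_nonneg_right h1 (sub_nonneg.2 (Pot.dd_le_one y))
  have h3 : 1 / dd y * (1 - dd y) = 1 / dd y - 1 := by field_simp
  have h4 : 0 < 1 / dd y := by positivity
  have h5 := congrArg (fun z => 2 * r / dd y ^ 2 * z) hs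
  simp only [Fintype.sum_bool]
  nlinarith

end Pool.Agent.MP_16e930_an.H27
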