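import Pool.Agent.MP_16e930_an.H27.Spec

/-!
Locally Lipschitz maps of the ball are Sobolev maps; preimages of null sets.
-/

set_option autoImplicit false
open MeasureTheory Filter Topology Set
open scoped ENNReal

namespace Pool.Agent.MP_16e930_an.H27

theorem rowPull : PullStmt := by
  intro A B K hB hAB P hP
  rw [ae_iff] at hP ⊢
  have hsub : {p : V | ¬ P (A p)} ⊆ B '' {z : V | ¬ P z} := fun p hp => ⟨A p, hp, hAB p⟩
  refine measure_mono_null hsub ?_
  have h1 := hB.hausdorffMeasure_image_le (d := (Fintype.card (Fin 3) : ℝ)) (by positivity)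
    {z : V | ¬ P z}
  rw [hausdorffMeasure_pi_real, hP, mul_zero] at h1
  exact le_antisymm h1 (by simp)

namespace Sob

/-- Near a compact subset of the ball the map agrees with a Lipschitz map. -/
theorem ext (f : E → E) (hf : ∀ p ∈ Metric.ball (0 : E) 1, LL f p) (C : Set E)
    (hC : C ⊆ Metric.ball (0 : E) 1) (hc : IsCompact C) :
    ∃ (g : E → E) (K : NNReal), LipschitzWith K g ∧ ∀ x ∈ C, f =ᶠ[𝓝 x] g := by
  obtain ⟨L, hL, hCL, hLU⟩ := exists_compact_between hc Metric.isOpen_ball hC
  have hloc : LocallyLipschitzOn L f := by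
    intro x hx
    obtain ⟨K, t, ht, hK⟩ := hf x (hLU hx)
    exact ⟨K, t, mem_nhdsWithin_of_mem_nhds ht, hK⟩
  obtain ⟨K, hK⟩ := hloc.exists_lipschitzOnWith_of_compact hL
  obtain ⟨g, hg, hfg⟩ := hK.extend_finite_dimension
  refine ⟨g, _, hg, fun x hx => ?_⟩
  filter_upwards [mem_interior_iff_mem_nhds.1 (hCL hx)] with y hy using hfg hy

theorem cont (f : E → E) (hf : ∀ p ∈ Metric.ball (0 : E) 1, LL f p) :
    ContinuousOn f (Metric.ball 0 1) := by
  intro x hx
  obtain ⟨K, t, ht, hK⟩ := hf x hx
  exact (hK.continuousOn.continuousAt ht).continuousWithinAt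

end Sob

theorem rowSob : SobStmt := by
  intro f hf
  refine ⟨Sob.cont f hf, fun C hC hc => ?_, fun C hC hc => ?_, fun φ hφ hφc hφs v i => ?_⟩
  · have : IsFiniteMeasure (volume.restrict C) := isFiniteMeasure_restrict.2 hc.measure_lt_top.ne
    have h1 : ContinuousOn f C := (Sob.cont f hf).mono hC
    obtain ⟨B, hB⟩ := hc.exists_bound_of_continuousOn h1
    refine MemLp.of_bound (h1.aestronglyMeasurable hc.measurableSet) B ?_
    filter_upwards [ae_restrict_mem hc.measurableSet] with x hx using hB x hx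
  · have : IsFiniteMeasure (volume.restrict C) := isFiniteMeasure_restrict.2 hc.measure_lt_top.ne
    obtain ⟨g, K, hg, hfg⟩ := Sob.ext f hf C hC hc
    refine MemLp.of_bound (measurable_fderiv ℝ f).aestronglyMeasurable K ?_
    filter_upwards [ae_restrict_mem hc.measurableSet] with x hx
    rw [(hfg x hx).fderiv_eq]
    exact norm_fderiv_le_of_lipschitz ℝ hg
  · obtain ⟨g, K, hg, hfg⟩ := Sob.ext f hf (tsupport φ) hφs hφc
    obtain ⟨D, hD⟩ := ContDiff.lipschitzWith_of_hasCompactSupport hφc hφ (by simp)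
    let π : E →L[ℝ] ℝ := EuclideanSpace.proj i
    have hu : LipschitzWith (‖π‖₊ * K) (fun x => π (g x)) := π.lipschitz.comp hg
    have key := hu.integral_lineDeriv_mul_eq (μ := volume) hD hφc v
    have h1 : ∫ x, lineDeriv ℝ (fun x => π (g x)) x v * φ x = ∫ x, φ x * fderiv ℝ f x v i := by
      refine integral_congr_ae ?_
      filter_upwards [hg.ae_differentiableAt (μ := volume)] with x hx
      by_cases hxs : x ∈ tsupport φ
      · have h2 : HasFDerivAt (fun x => π (g x)) (π.comp (fderiv ℝ g x)) x :=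
          π.hasFDerivAt.comp x hx.hasFDerivAt
        rw [(h2.hasLineDerivAt v).lineDeriv, (hfg x hxs).fderiv_eq, mul_comm]
        rfl
      · rw [image_eq_zero_of_notMem_tsupport hxs]; simp
    have h2 : ∫ x, lineDeriv ℝ φ x (-v) * π (g x) = -∫ x, fderiv ℝ φ x v * f x i := by
      rw [← integral_neg]
      refine integral_congr_ae (Eventually.of_forall fun x => ?_)
      have hd : DifferentiableAt ℝ φ x := hφ.differentiable (by simp) x
      show lineDeriv ℝ φ x (-v) * π (g x) = -(fderiv ℝ φ x v * f x i)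
      rw [hd.lineDeriv_eq_fderiv, map_neg]
      by_cases hxs : x ∈ tsupport φ
      · rw [(hfg x hxs).eq_of_nhds, neg_mul]
        rfl
      · rw [fderiv_of_notMem_tsupport ℝ hxs]; simp
    rw [← h1, key, h2, neg_neg]

end Pool.Agent.MP_16e930_an.H27
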