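import Mathlib

/-!
A bounded quasiregular map of the 3-ball without radial limits on a set of positive area.
Definitions and the statements of the parts.  Half-space coordinates: `V = Fin 3 → ℝ`
with the sup norm, the height is the coordinate `2`.
-/

set_option autoImplicit false
open MeasureTheory Filter Topology Set
open scoped ENNReal

namespace Pool.Agent.MP_16e930_an.H27

abbrev V : Type := Fin 3 → ℝ
abbrev E : Type := EuclideanSpace ℝ (Fin 3)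

/-- Determinant of the matrix with columns `a`, `b`, `c`. -/
def det3 {R : Type} [CommRing R] (a b c : Fin 3 → R) : R :=
  a 0 * (b 1 * c 2 - b 2 * c 1) - a 1 * (b 0 * c 2 - b 2 * c 0) + a 2 * (b 0 * c 1 - b 1 * c 0)

/-- The `i`-th column of a linear map. -/
def col (D : V →L[ℝ] V) (i : Fin 3) : V := D (Pi.single i 1)

/-- Bounded distortion, by entries. -/
def Gd (D : V →L[ℝ] V) : Prop :=
  ∃ σ : ℝ, 0 < σ ∧ (∀ i j, |col D i j| ≤ 15 * σ) ∧ σ ^ 3 ≤ det3 (col D 0) (col D 1) (col D 2)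

/-- Lipschitz near the point `p`. -/
def LL {X Y : Type} [PseudoMetricSpace X] [PseudoMetricSpace Y] (F : X → Y) (p : X) : Prop :=
  ∃ K : NNReal, ∃ t ∈ 𝓝 p, LipschitzOnWith K F t

/-- One minus the square of the Euclidean norm. -/
def dd (y : V) : ℝ := 1 - (y 0 ^ 2 + y 1 ^ 2 + y 2 ^ 2)

/-- The point of the ground plane below `x`. -/
def gr (x : ℝ × ℝ) : V := ![x.1, x.2, 0]

/-- The open square in which everything happens. -/
def Sq : Set (ℝ × ℝ) := Ioo 0 (1 / 4) ×ˢ Ioo 0 (1 / 4)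

/-- The potential. -/
noncomputable def pot (F : V → V) (x : ℝ × ℝ) : ℝ≥0∞ := ENNReal.ofReal (1 / dd (F (gr x)))

/-- The part of the invariant that the iteration uses. -/
structure Base (F : V → V) (U : Set (ℝ × ℝ)) : Prop where
  lip : ∀ p : V, 0 ≤ p 2 → LL F p
  der : ∀ᵐ p : V, 0 < p 2 → ∃ D : V →L[ℝ] V, HasFDerivAt F D p ∧ Gd D
  bdd : ∀ p : V, ‖p‖ ≤ 3 → 0 ≤ p 2 → 0 < dd (F p)
  opn : IsOpen U
  sub : U ⊆ Sq

/-- One step of the construction, for an invariant `I`. -/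
def StepFor (I : (V → V) → Set (ℝ × ℝ) → Prop) (q c : ℝ) : Prop :=
  ∀ F U, I F U → ∀ ε : ℝ, 0 < ε → ∃ F' U', I F' U' ∧ U' ⊆ U ∧ (∀ p : V, ε ≤ p 2 → F' p = F p) ∧
    volume U ≤ volume U' + ENNReal.ofReal ε ∧
    ∫⁻ x in U', pot F' x ≤ ENNReal.ofReal q * ∫⁻ x in U, pot F x + 4 ∧
    ∀ x ∈ U', c * dd (F (gr x)) ≤ ‖F' (gr x) - F (gr x)‖

/-- The input of the iteration. -/
def StepStmt : Prop :=
  ∃ (I : (V → V) → Set (ℝ × ℝ) → Prop) (q c : ℝ), 0 ≤ q ∧ q < 1 ∧ 0 < c ∧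
    (∀ F U, I F U → Base F U) ∧ StepFor I q c ∧
    ∃ F, I F Sq ∧ ∀ x ∈ Sq, 1 / 2 ≤ dd (F (gr x))

/-- The theorem in the half-space. -/
def HalfStmt : Prop :=
  ∃ Φ : V → V, (∀ p : V, 0 < p 2 → LL Φ p) ∧
    (∀ᵐ p : V, 0 < p 2 → ∃ D : V →L[ℝ] V, HasFDerivAt Φ D p ∧ Gd D) ∧
    (∀ p : V, ‖p‖ ≤ 3 → 0 < p 2 → 0 < dd (Φ p)) ∧
    ∃ A ⊆ Sq, 0 < volume A ∧ ∀ x ∈ A, ∀ γ : ℝ → V,
      (∀ s : ℝ, 0 < s → s < 1 / 10 → s ≤ γ s 2 ∧ dist (γ s) (gr x) ≤ 10 * s) →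
      ¬ ∃ L : V, Tendsto (fun s => Φ (γ s)) (𝓝[>] 0) (𝓝 L)

/-- The theorem in the ball, with classical derivatives. -/
def BallStmt : Prop :=
  ∃ f : E → E, (∀ p ∈ Metric.ball (0 : E) 1, LL f p) ∧
    MapsTo f (Metric.ball 0 1) (Metric.ball 0 1) ∧
    (∃ K : ℝ, 1 ≤ K ∧ ∀ᵐ x ∂(volume.restrict (Metric.ball (0 : E) 1)),
      ‖fderiv ℝ f x‖ ^ 3 ≤ K * (fderiv ℝ f x).det) ∧
    0 < μH[2] {ξ : E | ξ ∈ Metric.sphere (0 : E) 1 ∧
      ¬ ∃ L : E, Tendsto (fun t : ℝ => f (t • ξ)) (𝓝[<] 1) (𝓝 L)}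

/-- Locally Lipschitz maps of the ball are Sobolev maps with the classical derivative. -/
def SobStmt : Prop :=
  ∀ f : E → E, (∀ p ∈ Metric.ball (0 : E) 1, LL f p) →
    ContinuousOn f (Metric.ball 0 1) ∧
    (∀ C ⊆ Metric.ball (0 : E) 1, IsCompact C → MemLp f 3 (volume.restrict C)) ∧
    (∀ C ⊆ Metric.ball (0 : E) 1, IsCompact C → MemLp (fderiv ℝ f) 3 (volume.restrict C)) ∧
    ∀ φ : E → ℝ, ContDiff ℝ 1 φ → HasCompactSupport φ → tsupport φ ⊆ Metric.ball 0 1 →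
      ∀ (v : E) (i : Fin 3), ∫ x, fderiv ℝ φ x v * f x i = -∫ x, φ x * fderiv ℝ f x v i

/-- Preimages of null sets under maps with a Lipschitz left inverse are null. -/
def PullStmt : Prop :=
  ∀ (A B : V → V) (K : NNReal), LipschitzWith K B → (∀ p, B (A p) = p) →
    ∀ P : V → Prop, (∀ᵐ z : V, P z) → ∀ᵐ p : V, P (A p)

def OfIter : Prop := StepStmt → HalfStmt
def OfBall : Prop := PullStmt → HalfStmt → BallStmt

/-! Piecewise linear interpolation on the Kuhn triangulation of the integer lattice. -/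

/-- The hat function of the Kuhn triangulation. -/
def hat (u : V) : ℝ :=
  max 0 (1 + min (min 0 (u 0)) (min (u 1) (u 2)) - max (max 0 (u 0)) (max (u 1) (u 2)))

/-- The interpolant of lattice values. -/
noncomputable def interp (ω : (Fin 3 → ℤ) → V) (z : V) : V :=
  ∑ᶠ m : Fin 3 → ℤ, hat (z - fun i => (m i : ℝ)) • ω m

/-- The six orders of the coordinates: `rk o i` is the position of the coordinate `i`. -/
def rk : Fin 6 → Fin 3 → ℕ :=
  ![![0, 1, 2], ![1, 0, 2], ![0, 2, 1], ![2, 0, 1], ![1, 2, 0], ![2, 1, 0]]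

/-- The `s`-th vertex of the simplex of order `o` in the cube with corner `m`. -/
def vert (m : Fin 3 → ℤ) (o : Fin 6) (s : ℕ) : Fin 3 → ℤ :=
  fun j => m j + if rk o j < s then 1 else 0

/-- The `i`-th column of the differential of the interpolant on a simplex. -/
def dif (ω : (Fin 3 → ℤ) → V) (m : Fin 3 → ℤ) (o : Fin 6) (i : Fin 3) : V :=
  ω (vert m o (rk o i + 1)) - ω (vert m o (rk o i))

/-- The closed simplex of order `o` in the cube with corner `m`. -/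
def InS (m : Fin 3 → ℤ) (o : Fin 6) (z : V) : Prop :=
  (∀ i, (m i : ℝ) ≤ z i ∧ z i ≤ m i + 1) ∧
    ∀ i j, rk o i < rk o j → z j - m j ≤ z i - m i

/-- The facts about the interpolant. -/
structure PL : Prop where
  lip : ∀ ω z, LL (interp ω) z
  formula : ∀ ω m o z, InS m o z → interp ω z = ω m + ∑ i, (z i - m i) • dif ω m o i
  cover : ∀ z : V, ∃ o, InS (fun i => ⌊z i⌋) o z
  bound : ∀ (ω : (Fin 3 → ℤ) → V) (z : V) (k : ℤ) (B : ℝ), (k : ℝ) ≤ z 2 →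
    (∀ m : Fin 3 → ℤ, k ≤ m 2 → ‖ω m‖ ≤ B) → ‖interp ω z‖ ≤ B
  generic : ∀ᵐ z : V, ∃ m o, ∀ᶠ w in 𝓝 z, InS m o w

/-- The four sign changes of determinant one. -/
def flip (a b : Bool) (y : V) : V :=
  ![if a then -y 0 else y 0, if b then -y 1 else y 1, if a = b then y 2 else -y 2]

/-- The drift inequality.  `y` is the reference value, `w a b` the old values at the four
translates, `η` the displacement. -/
def PotStmt : Prop :=
  ∀ (y η : V) (w : Bool → Bool → V) (r : ℝ), 0 < dd y → ‖η‖ ≤ 1 →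
    (∀ a b, ‖w a b - y‖ ≤ 1 / 10 ^ 20 * dd y) →
    1 / 10 ^ 10 * dd y ≤ r → r ≤ 2 / 10 ^ 10 * dd y →
    ∑ a, ∑ b, 1 / dd (w a b + r • (flip a b η - (1 / 10 ^ 5 : ℝ) • y)) ≤
      4 * ((1 - 1 / 10 ^ 16) * (1 / dd (w false false)) + 4)

end Pool.Agent.MP_16e930_an.H27
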