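import Pool.Agent.MP_16e930_an.H27.Cell
import Pool.Agent.MP_16e930_an.H27.Iter

/-! One step of the construction. -/

set_option autoImplicit false
open MeasureTheory Filter Topology Set
open scoped ENNReal

namespace Pool.Agent.MP_16e930_an.H27

noncomputable def idx (l : ℝ) (x : ℝ × ℝ) : ℤ × ℤ := (⌊x.1 / l⌋, ⌊x.2 / l⌋)

/-- Signed distance to the complement of a square of the grid. -/
noncomputable def dm (l : ℝ) (m : ℤ × ℤ) (x : ℝ × ℝ) : ℝ :=
  min (min (x.1 - l * m.1) (l * m.1 + l - x.1)) (min (x.2 - l * m.2) (l * m.2 + l - x.2))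

lemma dm_lip (l : ℝ) (m : ℤ × ℤ) : LipschitzWith 1 (dm l m) := by
  refine LipschitzWith.of_le_add fun x y => ?_
  have h1 := abs_le.1 (le_max_left (dist x.1 y.1) (dist x.2 y.2))
  have h2 := abs_le.1 (le_max_right (dist x.1 y.1) (dist x.2 y.2))
  rw [← Prod.dist_eq] at h1 h2
  have a1 : dm l m x ≤ x.1 - l * m.1 := (min_le_left _ _).trans (min_le_left _ _)
  have a2 : dm l m x ≤ l * m.1 + l - x.1 := (min_le_left _ _).trans (min_le_right _ _)
  have a3 : dm l m x ≤ x.2 - l * m.2 := (min_le_right _ _).trans (min_le_left _ _)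
  have a4 : dm l m x ≤ l * m.2 + l - x.2 := (min_le_right _ _).trans (min_le_right _ _)
  rw [← sub_le_iff_le_add]
  simp only [dm, le_min_iff] at *
  refine ⟨⟨?_, ?_⟩, ?_, ?_⟩ <;> linarith [h1.1, h1.2, h2.1, h2.2]

lemma floor_iff {l : ℝ} (hl : 0 < l) (t : ℝ) (i : ℤ) :
    ⌊t / l⌋ = i ↔ l * i ≤ t ∧ t < l * i + l := by
  rw [Int.floor_eq_iff, le_div_iff₀ hl, div_lt_iff₀ hl]
  constructor <;> rintro ⟨a, b⟩ <;> constructor <;> linarith

lemma idx_of_dm {l : ℝ} (hl : 0 < l) {m : ℤ × ℤ} {x : ℝ × ℝ} (h : 0 < dm l m x) :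
    idx l x = m := by
  simp only [dm, lt_min_iff] at h
  obtain ⟨⟨a, b⟩, c, d⟩ := h
  exact Prod.ext ((floor_iff hl _ _).2 ⟨by linarith, by linarith⟩)
    ((floor_iff hl _ _).2 ⟨by linarith, by linarith⟩)

lemma dist_of_idx {l : ℝ} (hl : 0 < l) {x y : ℝ × ℝ} (h : idx l x = idx l y) : dist x y < l := by
  obtain ⟨a, b⟩ := (floor_iff hl x.1 _).1 (congrArg Prod.fst h)
  obtain ⟨c, d⟩ := (floor_iff hl x.2 _).1 (congrArg Prod.snd h)
  obtain ⟨a', b'⟩ := (floor_iff hl y.1 _).1 (rfl : _ = (idx l y).1)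
  obtain ⟨c', d'⟩ := (floor_iff hl y.2 _).1 (rfl : _ = (idx l y).2)
  rw [Prod.dist_eq, max_lt_iff, Real.dist_eq, Real.dist_eq, abs_lt, abs_lt]
  refine ⟨⟨?_, ?_⟩, ?_, ?_⟩ <;> linarith

lemma dm_pos {l : ℝ} (hl : 0 < l) {x : ℝ × ℝ} (h : Off (1 / l) x) : 0 < dm l (idx l x) x := by
  obtain ⟨a, b⟩ := (floor_iff hl x.1 _).1 (rfl : _ = (idx l x).1)
  obtain ⟨c, d⟩ := (floor_iff hl x.2 _).1 (rfl : _ = (idx l x).2)
  have a' := a.lt_of_ne fun e => (h (idx l x).1).1 (by rw [← e]; field_simp)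
  have c' := c.lt_of_ne fun e => (h (idx l x).2).2.1 (by rw [← e]; field_simp)
  simp only [dm, lt_min_iff]
  refine ⟨⟨?_, ?_⟩, ?_, ?_⟩ <;> linarith

lemma ae_off {lam : ℝ} (hl : lam ≠ 0) : ∀ᵐ x : ℝ × ℝ, Off lam x := by
  have key : ∀ (a b t : ℝ), a ≠ 0 ∨ b ≠ 0 → ∀ᵐ x : ℝ × ℝ, a * x.1 + b * x.2 ≠ t := by
    have k1 : ∀ (a b t : ℝ), b ≠ 0 → ∀ᵐ x : ℝ × ℝ, a * x.1 + b * x.2 ≠ t := by
      intro a b t hb
      have hm : MeasurableSet {x : ℝ × ℝ | a * x.1 + b * x.2 ≠ t} :=
        (isClosed_eq (by fun_prop) continuous_const).measurableSet.compl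
      rw [Measure.volume_eq_prod, Measure.ae_prod_iff_ae_ae hm]
      refine Eventually.of_forall fun u => ?_
      filter_upwards [Measure.ae_ne volume ((t - a * u) / b)] with v hv e
      exact hv (by rw [← e]; field_simp; ring)
    intro a b t hab
    rcases hab with ha | hb
    · have := (Measure.measurePreserving_swap (μ := (volume : Measure ℝ))
        (ν := (volume : Measure ℝ))).quasiMeasurePreserving.ae (k1 b a t ha)
      filter_upwards [this] with x hx
      rw [add_comm]; exact hx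
    · exact k1 a b t hb
  refine ae_all_iff.2 fun i => ?_
  filter_upwards [key lam 0 i (Or.inl hl), key 0 lam i (Or.inr hl),
    key lam (-lam) i (Or.inl hl)] with x a b c
  exact ⟨by simpa using a, by simpa using b, by simpa [sub_eq_add_neg] using c⟩

lemma isOpen_off (lam : ℝ) : IsOpen {x | Off lam x} := by
  have h : IsOpen (range (Int.cast : ℤ → ℝ))ᶜ :=
    Int.isClosedEmbedding_coe_real.isClosed_range.isOpen_compl
  have e : {x | Off lam x} = (fun x : ℝ × ℝ => lam * x.1) ⁻¹' (range (Int.cast : ℤ → ℝ))ᶜ ∩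
      ((fun x : ℝ × ℝ => lam * x.2) ⁻¹' (range (Int.cast : ℤ → ℝ))ᶜ ∩
        (fun x : ℝ × ℝ => lam * x.1 - lam * x.2) ⁻¹' (range (Int.cast : ℤ → ℝ))ᶜ) := by
    ext x
    simp only [Off, mem_ofPred_eq, mem_inter_iff, mem_preimage, mem_compl_iff, mem_range,
      not_exists, forall_and, ne_eq, eq_comm]
  rw [e]
  exact (h.preimage (by fun_prop)).inter
    ((h.preimage (by fun_prop)).inter (h.preimage (by fun_prop)))

lemma exists_big {A : ℕ → Set (ℝ × ℝ)} (hA : Monotone A) {U : Set (ℝ × ℝ)}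
    (hU : ∀ᵐ x, x ∈ U → ∃ n, x ∈ A n) (hf : volume U ≠ ∞) {ε : ℝ} (hε : 0 < ε) :
    ∃ n, volume U ≤ volume (A n) + ENNReal.ofReal ε := by
  by_contra hc
  simp only [not_exists, not_le] at hc
  have h1 : volume U ≤ volume (⋃ n, A n) := measure_mono_ae (hU.mono fun x hx h => by
    obtain ⟨n, hn⟩ := hx h
    exact mem_iUnion.2 ⟨n, hn⟩)
  rw [hA.measure_iUnion] at h1
  have h2 : (⨆ n, volume (A n)) + ENNReal.ofReal ε ≤ volume U := by
    rw [ENNReal.iSup_add]; exact iSup_le fun n => (hc n).le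
  have h3 : volume U < volume U + ENNReal.ofReal ε :=
    ENNReal.lt_add_right hf (by simpa using hε)
  exact absurd (h3.trans_le ((add_le_add_left h1 _).trans h2)) (lt_irrefl _)

lemma vol_Sq : volume Sq ≤ 1 := by
  rw [Sq, Measure.volume_eq_prod, Measure.prod_prod, Real.volume_Ioo,
    ← ENNReal.ofReal_mul (by norm_num)]
  exact ENNReal.ofReal_le_one.2 (by norm_num)

lemma norm_gr {x : ℝ × ℝ} (h : x ∈ Sq) : ‖gr x‖ ≤ 3 := by
  obtain ⟨⟨a, b⟩, c, d⟩ := h
  rw [pi_norm_le_iff_of_nonneg (by norm_num)]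
  intro i
  fin_cases i <;> simp [gr, abs_le] <;> constructor <;> linarith

lemma Dat.mono {F : V → V} {U : Set (ℝ × ℝ)} {η η' : ℝ} {x : ℝ × ℝ} {ρ : ℝ} {c : Cl}
    {L : V →L[ℝ] V} (h : Dat F U η x ρ c L) (h0 : 0 < η') (h1 : η' ≤ η) : Dat F U η' x ρ c L :=
  ⟨h1.trans h.lo, le_trans (mul_le_mul_of_nonneg_left h1 ((h0.le.trans h1).trans h.lo)) h.hi,
    h.adm, (Metric.ball_subset_ball h1).trans h.sub, fun p a => h.aff p (a.trans_le h1),
    fun p a => h.osc p (a.trans_le h1)⟩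

lemma exists_dat {F : V → V} {U : Set (ℝ × ℝ)} (hF : Base F U) {x : ℝ × ℝ} (hx : x ∈ U)
    (hN : Nice F x) : ∃ η, 0 < η ∧ ∃ ρ c L, Dat F U η x ρ c L := by
  obtain ⟨ρ, hρ, c, L, hA, h1⟩ := hN
  have hD := hF.bdd (gr x) (norm_gr (hF.sub hx)) le_rfl
  have h2 : ∀ᶠ p in 𝓝 (gr x), dist (F p) (F (gr x)) < 1 / 10 ^ 20 * dd (F (gr x)) :=
    Metric.tendsto_nhds.1 (hF.lip (gr x) le_rfl).continuousAt _ (by positivity)
  obtain ⟨a, ha, h3⟩ := Metric.eventually_nhds_iff.1 (h1.and h2)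
  obtain ⟨b, hb, h4⟩ := Metric.isOpen_iff.1 hF.opn x hx
  refine ⟨min (min a b) (min ρ (dd (F (gr x)) / ρ)), by positivity, ρ, c, L,
    (min_le_right _ _).trans (min_le_left _ _), ?_, hA,
    (Metric.ball_subset_ball ((min_le_left _ _).trans (min_le_right _ _))).trans h4,
    fun p hp => (h3 (hp.trans_le ((min_le_left _ _).trans (min_le_left _ _)))).1,
    fun p hp _ => ?_⟩
  · rw [← le_div_iff₀' hρ]; exact (min_le_right _ _).trans (min_le_right _ _)
  · rw [← dist_eq_norm]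
    exact (h3 (hp.trans_le ((min_le_left _ _).trans (min_le_left _ _)))).2.le

lemma dist_tr {lam : ℝ} (hl : 0 < lam) (a b a' b' : Bool) (x : ℝ × ℝ) :
    dist (tr lam a b x) (tr lam a' b' x) ≤ 1 / lam := by
  have h : 0 < lam⁻¹ := by positivity
  cases a <;> cases b <;> cases a' <;> cases b' <;>
    simp [tr, Prod.dist_eq, Real.dist_eq, abs_of_pos hl, hl.le]

def Inv (F : V → V) (U : Set (ℝ × ℝ)) : Prop := Base F U ∧ ∀ x ∈ U, Nice F x

theorem step (H : PL) (HP : PullStmt) (HV : PotStmt) :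
    Iter.StepForP Inv (1 - 1 / 10 ^ 16) (1 / 10 ^ 11) := by
  rintro F U ⟨hF, hN⟩ ε hε
  have hUf : volume U ≠ ∞ := ((measure_mono hF.sub).trans vol_Sq).trans_lt ENNReal.one_lt_top |>.ne
  -- first choice: the size of the squares
  set G : ℕ → Set (ℝ × ℝ) := fun j => {x | ∃ ρ c L, Dat F U (1 / ((j : ℝ) + 1)) x ρ c L} with hG
  obtain ⟨j, hj⟩ := exists_big (A := G) (U := U)
    (monotone_nat_of_le_succ fun j x ⟨ρ, c, L, h⟩ => ⟨ρ, c, L, h.mono (by positivity)
      (one_div_le_one_div_of_le (by positivity) (by push_cast; linarith))⟩)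
    (Eventually.of_forall fun x hx => by
      obtain ⟨η, hη, ρ, c, L, h⟩ := exists_dat hF hx (hN x hx)
      obtain ⟨n, hn⟩ := exists_nat_one_div_lt hη
      exact ⟨n, ρ, c, L, h.mono (by positivity) hn.le⟩) hUf (half_pos hε)
  set η : ℝ := 1 / ((j : ℝ) + 1) with hηd
  have hη : 0 < η := by positivity
  have hGU : G j ⊆ U := fun x ⟨ρ, c, L, h⟩ => h.sub (Metric.mem_ball_self hη)
  -- second choice: the width of the margin
  obtain ⟨n, hn⟩ := exists_big
    (A := fun n : ℕ => {x | x ∈ G j ∧ 1 / ((n : ℝ) + 1) < dm η (idx η x) x}) (U := G j)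
    (monotone_nat_of_le_succ fun n x ⟨a, b⟩ => ⟨a, lt_of_le_of_lt
      (one_div_le_one_div_of_le (by positivity) (by push_cast; linarith)) b⟩)
    ((ae_off (one_div_ne_zero hη.ne')).mono fun x hx h => by
      obtain ⟨n, hn⟩ := exists_nat_one_div_lt (dm_pos hη hx)
      exact ⟨n, h, hn⟩) (ne_top_of_le_ne_top hUf (measure_mono hGU)) (half_pos hε)
  set w : ℝ := 1 / ((n : ℝ) + 1) with hwd
  have hw : 0 < w := by positivity
  set δ : ℝ := min ε (min (η / 2) (w / 400000)) with hδd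
  have hδ : 0 < δ := by positivity
  set lam : ℝ := max (2 / w) (max (10 ^ 16 / η) (16 / (η * δ ^ 2))) with hlam
  have hl : 0 < lam := lt_of_lt_of_le (by positivity) (le_max_left _ _)
  have hlw : 1 / lam < w := by
    have : 2 / w ≤ lam := le_max_left _ _
    rw [div_le_iff₀ hw] at this
    rw [div_lt_iff₀ hl]; linarith
  have hex : ∀ m : ℤ × ℤ, ∃ g, Mod F g (dm η m) lam δ ∧
      ((∃ x0 ∈ G j, idx η x0 = m) → Act F g (dm η m) lam w) := by
    intro m
    by_cases hm : ∃ x0 ∈ G j, idx η x0 = m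
    · obtain ⟨x0, ⟨ρ, c, L, h⟩, e⟩ := hm
      obtain ⟨g, a, b⟩ := cell H HP HV hF (lam := lam) (w := w) hη hδ
        ((min_le_right _ _).trans (min_le_left _ _)) ((min_le_right _ _).trans (min_le_right _ _))
        ((le_max_left _ _).trans (le_max_right _ _)) ((le_max_right _ _).trans (le_max_right _ _))
        (dm_lip η m) (fun x hx => dist_of_idx hη ((idx_of_dm hη hx).trans e.symm)) h
      exact ⟨g, a, fun _ => b⟩
    · exact ⟨_, mod_zero hF _ _ _, fun h => absurd h hm⟩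
  choose g hM hA using hex
  have hUin : ∀ m, (∃ x0 ∈ G j, idx η x0 = m) → ∀ x, 0 < dm η m x → x ∈ U := by
    rintro m ⟨x0, ⟨ρ, c, L, h⟩, e⟩ x hx
    exact h.sub (dist_of_idx hη ((idx_of_dm hη hx).trans e.symm))
  set F' : V → V := fun p => F p + g (idx η (pr p)) p with hF'
  set U' : Set (ℝ × ℝ) :=
    (⋃ m ∈ {m | ∃ x0 ∈ G j, idx η x0 = m}, {x | w < dm η m x}) ∩ {x | Off lam x} with hU'
  have hmem : ∀ x, x ∈ U' ↔ (∃ x0 ∈ G j, idx η x0 = idx η x) ∧ w < dm η (idx η x) x ∧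
      Off lam x := by
    intro x
    simp only [hU', mem_inter_iff, mem_iUnion, mem_ofPred_eq, exists_prop]
    constructor
    · rintro ⟨⟨m, a, b⟩, c⟩
      rw [idx_of_dm hη (hw.trans b)]
      exact ⟨a, b, c⟩
    · rintro ⟨a, b, c⟩
      exact ⟨⟨_, a, b⟩, c⟩
  have hloc : ∀ p : V, 0 ≤ p 2 → F' =ᶠ[𝓝 p] fun p' => F p' + g (idx η (pr p)) p' := by
    intro p hp
    filter_upwards [Metric.ball_mem_nhds p (show 0 < 1 / (2 * lam) by positivity)] with p' h'
    rw [Metric.mem_ball] at h'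
    by_cases e : idx η (pr p') = idx η (pr p)
    · simp only [hF', e]
    · have h1 : -(1 / (2 * lam)) ≤ p' 2 := by
        have := abs_le.1 ((dist_le_pi_dist p' p 2).trans h'.le)
        linarith [this.1]
      have h2 : dm η (idx η (pr p)) (pr p') ≤ 0 := not_lt.1 fun h => e (idx_of_dm hη h)
      have h3 : dm η (idx η (pr p')) (pr p) ≤ 0 := not_lt.1 fun h => e (idx_of_dm hη h).symm
      have h4 := (dm_lip η (idx η (pr p'))).le_add_mul (pr p') (pr p)
      have h5 := dist_pr p' p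
      have h6 : 1 / (2 * lam) ≤ 1 / lam := one_div_le_one_div_of_le hl (by linarith)
      simp only [hF']
      rw [(hM _).edge p' h1 (by simp only [NNReal.coe_one] at h4; linarith),
        (hM _).edge p' h1 (h2.trans (by positivity))]
  have hopen : IsOpen U' := (isOpen_biUnion fun m _ =>
    isOpen_lt continuous_const (dm_lip η m).continuous).inter (isOpen_off lam)
  have hsub : U' ⊆ U := fun x hx =>
    hUin _ ((hmem x).1 hx).1 x (hw.trans ((hmem x).1 hx).2.1)
  have hB : Base F' U' := by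
    refine ⟨fun p hp => ((hF.lip p hp).add ((hM _).lip p)).congr (hloc p hp), ?_,
      fun p a b => (hM _).bdd p a b, hopen, hsub.trans hF.sub⟩
    filter_upwards [ae_all_iff.2 fun m => (hM m).der] with p h hp
    obtain ⟨D, a, b⟩ := h (idx η (pr p)) hp
    exact ⟨D, a.congr_of_eventuallyEq (hloc p hp.le), b⟩
  refine ⟨F', U', ⟨hB, fun x hx => ?_⟩, hsub, fun p hp => ?_, ?_, ?_, fun x hx => ?_⟩
  · obtain ⟨a, b, c⟩ := (hmem x).1 hx
    obtain ⟨ρ, hρ, c', L, h1, h2⟩ := (hA _ a).nice x b c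
    refine ⟨ρ, hρ, c', L, h1, ?_⟩
    filter_upwards [h2, hloc (gr x) le_rfl] with p e1 e2 hp
    rw [e2]; exact e1 hp
  · simp only [hF']
    rw [(hM _).high p ((min_le_left _ _).trans hp), add_zero]
  · have h1 : volume {x | x ∈ G j ∧ w < dm η (idx η x) x} ≤ volume U' :=
      measure_mono_ae ((ae_off hl.ne').mono fun x hx h => (hmem x).2 ⟨⟨x, h.1, rfl⟩, h.2, hx⟩)
    calc volume U ≤ volume U' + ENNReal.ofReal (ε / 2) + ENNReal.ofReal (ε / 2) :=
          hj.trans (add_le_add_left (hn.trans (add_le_add_left h1 _)) _)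
      _ = _ := by rw [add_assoc, ← ENNReal.ofReal_add (by positivity) (by positivity), add_halves]
  · have hq : (0 : ℝ) ≤ 1 - 1 / 10 ^ 16 := by norm_num
    set q : ℝ := 1 - 1 / 10 ^ 16
    set φ := U'.indicator (pot F') with hφ
    have hpt : ∀ x, φ (tr lam true true x) + φ (tr lam true false x) +
        (φ (tr lam false true x) + φ (tr lam false false x)) ≤
        U.indicator (fun x => 4 * (ENNReal.ofReal q * pot F x + 4)) x := by
      intro x
      by_cases hx : ∃ a b, tr lam a b x ∈ U'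
      · obtain ⟨a0, b0, h0⟩ := hx
        obtain ⟨a, b, -⟩ := (hmem _).1 h0
        set m := idx η (tr lam a0 b0 x)
        have h1 : ∀ a b, w - 1 / lam < dm η m (tr lam a b x) := fun a b' => by
          have := (dm_lip η m).le_add_mul (tr lam a0 b0 x) (tr lam a b' x)
          simp only [NNReal.coe_one] at this
          linarith [dist_tr hl a0 b0 a b' x]
        have h2 : ∀ a b, 0 < dm η m (tr lam a b x) := fun a b' => by linarith [h1 a b']
        have e0 : tr lam false false x = x := by simp [tr]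
        have hxU : x ∈ U := e0 ▸ hUin m a _ (h2 false false)
        have h3 := (hA m a).pot x fun a b => (h1 a b).le
        have h4 : ∀ a' b', F' (gr (tr lam a' b' x)) =
            F (gr (tr lam a' b' x)) + g m (gr (tr lam a' b' x)) := fun a' b' => by
          simp only [hF', pr_gr, idx_of_dm hη (h2 a' b')]
        have h5 : ∀ a' b', 0 ≤ 1 / dd (F' (gr (tr lam a' b' x))) := fun a' b' =>
          (one_div_pos.2 (hB.bdd _ (norm_gr (hF.sub (hUin m a _ (h2 a' b')))) le_rfl)).le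
        have h6 : 0 ≤ 1 / dd (F (gr x)) :=
          (one_div_pos.2 (hF.bdd _ (norm_gr (hF.sub hxU)) le_rfl)).le
        simp only [← h4, Fintype.sum_bool] at h3
        rw [indicator_of_mem hxU]
        have h7 : ∀ z, φ z ≤ pot F' z := fun z => indicator_le_self _ _ z
        refine (add_le_add (add_le_add (h7 _) (h7 _)) (add_le_add (h7 _) (h7 _))).trans ?_
        simp only [pot]
        rw [← ENNReal.ofReal_add (h5 _ _) (h5 _ _), ← ENNReal.ofReal_add (h5 _ _) (h5 _ _),
          ← ENNReal.ofReal_add (add_nonneg (h5 _ _) (h5 _ _)) (add_nonneg (h5 _ _) (h5 _ _))]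
        refine (ENNReal.ofReal_le_ofReal h3).trans (le_of_eq ?_)
        rw [ENNReal.ofReal_mul (by norm_num), ENNReal.ofReal_add (by positivity) (by norm_num),
          ENNReal.ofReal_mul hq]
        simp
      · simp only [not_exists] at hx
        simp [hφ, indicator_of_notMem (hx _ _)]
    have htr : ∀ a b, ∫⁻ x, φ (tr lam a b x) = ∫⁻ x in U', pot F' x := fun a b => by
      rw [← lintegral_indicator hopen.measurableSet]
      exact lintegral_add_right_eq_self φ _
    have h1 := lintegral_mono (μ := volume) hpt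
    rw [lintegral_indicator hF.opn.measurableSet, lintegral_const_mul' _ _ (by simp),
      lintegral_add_right _ measurable_const, lintegral_const_mul' _ _ (by simp),
      setLIntegral_const] at h1
    have h2 := ((add_le_add (le_lintegral_add _ _) (le_lintegral_add _ _)).trans
      (le_lintegral_add _ _)).trans h1
    simp only [htr] at h2
    have h3 : 4 * ∫⁻ x in U', pot F' x ≤ 4 * (ENNReal.ofReal q * (∫⁻ x in U, pot F x) + 4) := by
      refine le_trans (le_of_eq (by ring)) (h2.trans ?_)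
      gcongr
      exact mul_le_of_le_one_right zero_le ((measure_mono hF.sub).trans vol_Sq)
    exact (ENNReal.mul_le_mul_iff_right (by norm_num) (by simp)).1 h3
  · obtain ⟨a, b, -⟩ := (hmem x).1 hx
    simpa [hF', pr_gr] using (hA _ a).step x b

end Pool.Agent.MP_16e930_an.H27
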