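import Pool.Agent.MP_16e930_an.H27.Step
import Pool.Agent.MP_16e930_an.H27.PL
import Pool.Agent.MP_16e930_an.H27.Pot
import Pool.Agent.MP_16e930_an.H27.Sob
import Pool.Agent.MP_16e930_an.H27.Ball

/-! The initial map and the assembly. -/

set_option autoImplicit false
open MeasureTheory Filter Topology Set

namespace Pool.Agent.MP_16e930_an.H27

noncomputable def L0 : V →L[ℝ] V :=
  ofCols fun i j => 1 / 100 * (Zc (false, false, false) i j : ℝ)

lemma L0_apply (p : V) : L0 p = ![(4 * p 0 - p 2) / 100, (4 * p 1 - p 2) / 100,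
    (4 * p 0 - 4 * p 1 + p 2) / 100] := by
  ext j
  fin_cases j <;> simp [L0, ofCols_apply, Fin.sum_univ_three, Zc, Z0, flipZ] <;> ring

lemma dd_L0 (p : V) (h : ‖p‖ ≤ 3) : 1 / 2 ≤ dd (L0 p) := by
  have a := fun i => abs_le.1 ((norm_le_pi_norm p i).trans h)
  have k : ∀ t : ℝ, -27 ≤ t → t ≤ 27 → (t / 100) ^ 2 ≤ 1 / 10 := fun t a b => by nlinarith
  have k0 := k (4 * p 0 - p 2) (by linarith [a 0, a 2]) (by linarith [a 0, a 2])
  have k1 := k (4 * p 1 - p 2) (by linarith [a 1, a 2]) (by linarith [a 1, a 2])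
  have k2 := k (4 * p 0 - 4 * p 1 + p 2) (by linarith [a 0, a 1, a 2]) (by linarith [a 0, a 1, a 2])
  rw [L0_apply]
  simp only [dd, Matrix.cons_val_zero, Matrix.cons_val_one, Matrix.cons_val]
  linarith

lemma gd_L0 : Gd L0 := by
  refine ⟨1 / 100, by norm_num, fun i j => ?_, ?_⟩
  · have : |(Zc (false, false, false) i j : ℝ)| ≤ 4 := by exact_mod_cast cert3 _ i j
    rw [L0, col_ofCols, abs_mul, abs_of_pos (by norm_num)]
    linarith
  · simp only [L0, col_ofCols, det3]
    simp [Zc, Z0, flipZ]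
    norm_num

lemma inv0 : Inv L0 Sq := by
  refine ⟨⟨fun p _ => ⟨_, univ, univ_mem, L0.lipschitz.lipschitzOnWith⟩,
    Eventually.of_forall fun p _ => ⟨L0, L0.hasFDerivAt, gd_L0⟩,
    fun p h _ => by linarith [dd_L0 p h], isOpen_Ioo.prod isOpen_Ioo, Subset.rfl⟩, fun x _ => ?_⟩
  refine ⟨1 / 100, by norm_num, (false, false, false), L0, fun i j => ?_,
    Eventually.of_forall fun p _ => by simp⟩
  rw [L0, col_ofCols, sub_self, abs_zero]; norm_num

theorem ballStmt : BallStmt :=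
  rowBall rowPull (rowIterP ⟨Inv, _, _, by norm_num, by norm_num, by norm_num, fun _ _ h => h.1,
    step rowPL rowPull rowPot, L0, inv0, fun _ hx => dd_L0 _ (norm_gr hx)⟩)

end Pool.Agent.MP_16e930_an.H27
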